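import Mathlib

/-!
# The abstract norm inequality

`norm_le_two`: if `S` is power bounded, `A n` is a bounded sequence commuting with `S`, and the
operator Toeplitz kernel `M_0 = 2`, `M_n = S^n + (A n)^*` is positive on the frequencies
`{1, 0, -n}`, then `‖S‖ ≤ 2`.
-/

set_option autoImplicit false

open ContinuousLinearMap Filter Topology
open scoped InnerProductSpace

namespace Pool.Agent.Crouzeix

variable {H : Type*} [NormedAddCommGroup H] [InnerProductSpace ℂ H] [CompleteSpace H]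

/-- positivity of the three-point Toeplitz kernel on frequencies `{1,0,-n}` -/
def ToeplitzPos (M : ℕ → H →L[ℂ] H) : Prop :=
  ∀ n : ℕ, 1 ≤ n → ∀ u₁ u₀ w : H,
    0 ≤ 2 * ‖u₁‖ ^ 2 + 2 * ‖u₀‖ ^ 2 + 2 * ‖w‖ ^ 2
      + 2 * ((inner ℂ u₀ (M 1 u₁))).re + 2 * ((inner ℂ w (M n u₀))).re + 2 * ((inner ℂ w (M (n + 1) u₁))).re

omit [CompleteSpace H] in
lemma re_self (x : H) : ((inner ℂ x x)).re = ‖x‖ ^ 2 := by
  have := inner_self_eq_norm_sq (𝕜 := ℂ) x
  simpa using this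

lemma inner_star_right (B : H →L[ℂ] H) (u v : H) : (inner ℂ u ((star B) v)) = (inner ℂ (B u) v) := by
  rw [ContinuousLinearMap.star_eq_adjoint, ContinuousLinearMap.adjoint_inner_right]

/-- the basic inequality, for an arbitrary vector `y` -/
theorem basic_ineq (S : H →L[ℂ] H) (A : ℕ → H →L[ℂ] H)
    (hcomm : ∀ n, Commute (A n) S)
    (hpos : ToeplitzPos (fun n => S ^ n + star (A n)))
    (K s : ℝ) (hs : 0 ≤ s) (hsK : s + 1 ≤ K) (y : H) (n : ℕ) (hn : 1 ≤ n) :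
    0 ≤ K ^ 2 * ‖y‖ ^ 2 - (K - 1) * ‖S y‖ ^ 2 - K * ((inner ℂ ((A 1 * S ^ 1) y) y)).re
      + s * (((inner ℂ ((A n * S ^ n) (S y)) (S y))).re - K * ((inner ℂ ((A (n + 1) * S ^ (n + 1)) y) y)).re) := by
  have h := hpos n hn (-((K : ℂ) • y)) (S y) ((s : ℂ) • (S ^ n) (S y))
  have e1 : ‖-((K : ℂ) • y)‖ ^ 2 = K ^ 2 * ‖y‖ ^ 2 := by
    rw [norm_neg, norm_smul, mul_pow]; simp [sq_abs]
  have e2 : ‖(s : ℂ) • (S ^ n) (S y)‖ ^ 2 = s ^ 2 * ‖(S ^ n) (S y)‖ ^ 2 := by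
    rw [norm_smul, mul_pow]; simp [sq_abs]
  have hSn : (S ^ (n + 1)) y = (S ^ n) (S y) := by
    rw [pow_succ]; rfl
  have hA1 : (A 1 * S ^ 1) y = A 1 (S y) := by rw [pow_one]; rfl
  have hAn : (A n * S ^ n) (S y) = A n ((S ^ n) (S y)) := rfl
  have hAn1 : (A (n + 1) * S ^ (n + 1)) y = A (n + 1) ((S ^ n) (S y)) := by
    rw [← hSn]; rfl
  have e3 : ((inner ℂ (S y) ((S ^ 1 + star (A 1)) (-((K : ℂ) • y))))).re
      = - K * ‖S y‖ ^ 2 - K * ((inner ℂ ((A 1 * S ^ 1) y) y)).re := by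
    have : ((inner ℂ (S y) ((S ^ 1 + star (A 1)) (-((K : ℂ) • y)))))
        = -((K : ℂ) * (inner ℂ (S y) (S y))) - (K : ℂ) * (inner ℂ ((A 1 * S ^ 1) y) y) := by
      rw [hA1]
      simp only [add_apply, map_neg, map_smul, inner_add_right, inner_neg_right,
        inner_smul_right, pow_one, inner_star_right]
      ring
    rw [this]
    simp only [Complex.sub_re, Complex.neg_re, Complex.re_ofReal_mul, re_self]
    ring
  have e4 : ((inner ℂ ((s : ℂ) • (S ^ n) (S y)) ((S ^ n + star (A n)) (S y)))).re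
      = s * ‖(S ^ n) (S y)‖ ^ 2 + s * ((inner ℂ ((A n * S ^ n) (S y)) (S y))).re := by
    have : ((inner ℂ ((s : ℂ) • (S ^ n) (S y)) ((S ^ n + star (A n)) (S y))))
        = (s : ℂ) * (inner ℂ ((S ^ n) (S y)) ((S ^ n) (S y))) + (s : ℂ) * (inner ℂ ((A n * S ^ n) (S y)) (S y)) := by
      rw [hAn]
      simp only [add_apply, inner_add_right, inner_smul_left, Complex.conj_ofReal,
        inner_star_right]
    rw [this]
    simp only [Complex.add_re, Complex.re_ofReal_mul, re_self]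
  have e5 : ((inner ℂ ((s : ℂ) • (S ^ n) (S y)) ((S ^ (n + 1) + star (A (n + 1))) (-((K : ℂ) • y))))).re
      = - (s * K) * ‖(S ^ n) (S y)‖ ^ 2 - s * K * ((inner ℂ ((A (n + 1) * S ^ (n + 1)) y) y)).re := by
    have : ((inner ℂ ((s : ℂ) • (S ^ n) (S y)) ((S ^ (n + 1) + star (A (n + 1))) (-((K : ℂ) • y)))))
        = - ((s * K : ℝ) : ℂ) * (inner ℂ ((S ^ n) (S y)) ((S ^ n) (S y)))
          - ((s * K : ℝ) : ℂ) * (inner ℂ ((A (n + 1) * S ^ (n + 1)) y) y) := by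
      rw [hAn1]
      simp only [add_apply, inner_add_right, inner_smul_left, Complex.conj_ofReal, map_neg,
        map_smul, inner_neg_right, inner_smul_right, hSn, Complex.ofReal_mul, inner_star_right]
      ring
    rw [this]
    simp only [Complex.sub_re, neg_mul, Complex.neg_re, Complex.re_ofReal_mul, re_self]
  simp only [] at h
  rw [e1, e2, e3, e4, e5] at h
  have hq : s * (s + 1 - K) * ‖(S ^ n) (S y)‖ ^ 2 ≤ 0 :=
    mul_nonpos_of_nonpos_of_nonneg (mul_nonpos_of_nonneg_of_nonpos hs (by linarith)) (sq_nonneg _)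
  nlinarith [h, hq]

/-- a self-contained error estimate: `S^* S y` is close to `‖S‖² y` for almost maximal `y`. -/
lemma adjoint_near (S : H →L[ℂ] H) (K : ℝ) (hK : ‖S‖ ≤ K) (y : H) (hy : ‖y‖ ≤ 1) :
    ‖(star S) (S y) - ((K ^ 2 : ℝ) : ℂ) • y‖ ^ 2 ≤ K ^ 2 * (K ^ 2 - ‖S y‖ ^ 2) := by
  have hK0 : 0 ≤ K := le_trans (norm_nonneg _) hK
  rw [@norm_sub_sq ℂ]
  have h1 : ‖(star S) (S y)‖ ≤ K * ‖S y‖ := by
    calc ‖(star S) (S y)‖ ≤ ‖star S‖ * ‖S y‖ := le_opNorm _ _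
      _ ≤ K * ‖S y‖ := by
        rw [norm_star]; exact mul_le_mul_of_nonneg_right hK (norm_nonneg _)
  have h2 : ‖(star S) (S y)‖ ^ 2 ≤ K ^ 2 * ‖S y‖ ^ 2 := by
    rw [← mul_pow]; exact pow_le_pow_left₀ (norm_nonneg _) h1 2
  have h3 : RCLike.re (inner ℂ ((star S) (S y)) (((K ^ 2 : ℝ) : ℂ) • y)) = K ^ 2 * ‖S y‖ ^ 2 := by
    rw [inner_smul_right, ContinuousLinearMap.star_eq_adjoint,
      ContinuousLinearMap.adjoint_inner_left]
    simp only [RCLike.re_to_complex, Complex.re_ofReal_mul, re_self]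
  have h4 : ‖((K ^ 2 : ℝ) : ℂ) • y‖ ^ 2 ≤ K ^ 4 := by
    rw [norm_smul, mul_pow]
    have : ‖((K ^ 2 : ℝ) : ℂ)‖ ^ 2 = K ^ 4 := by
      rw [Complex.norm_real, Real.norm_of_nonneg (by positivity)]; ring
    rw [this]
    have : ‖y‖ ^ 2 ≤ 1 := by
      have := pow_le_pow_left₀ (norm_nonneg y) hy 2
      simpa using this
    nlinarith [pow_nonneg hK0 4]
  rw [h3]
  nlinarith [h2, h4]

/-- the summed inequality for one vector `y` with an error term. -/
theorem summed (S : H →L[ℂ] H) (A : ℕ → H →L[ℂ] H) (C : ℝ)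
    (hcomm : ∀ n, Commute (A n) S) (hAS : ∀ n, ‖A n * S ^ n‖ ≤ C)
    (hpos : ToeplitzPos (fun n => S ^ n + star (A n)))
    (K : ℝ) (hK2 : 2 < K) (y : H) (hy : ‖y‖ ≤ 1) :
    K ^ 2 * (K - 2) ≤ (K - 1) * (K ^ 2 - ‖S y‖ ^ 2)
      + C * ‖(star S) (S y) - ((K ^ 2 : ℝ) : ℂ) • y‖ := by
  set s : ℝ := 1 / (K - 1) with hs
  have hK1 : 0 < K - 1 := by linarith
  have hs0 : 0 < s := by rw [hs]; positivity
  have hs1 : s ≤ 1 := by rw [hs, div_le_one hK1]; linarith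
  have hsK : s + 1 ≤ K := by linarith
  have hsK' : s * (K - 1) = 1 := by rw [hs]; field_simp
  set e : H := (star S) (S y) - ((K ^ 2 : ℝ) : ℂ) • y with he
  have hC : 0 ≤ C := le_trans (norm_nonneg _) (hAS 0)
  set β : ℕ → ℝ := fun n => ((inner ℂ ((A n * S ^ n) y) y)).re with hβ
  have hβb : ∀ n, |β n| ≤ C := by
    intro n
    calc |β n| ≤ ‖(inner ℂ ((A n * S ^ n) y) y)‖ := Complex.abs_re_le_norm _
      _ ≤ ‖(A n * S ^ n) y‖ * ‖y‖ := norm_inner_le_norm _ _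
      _ ≤ (‖A n * S ^ n‖ * ‖y‖) * ‖y‖ := by
          gcongr; exact le_opNorm _ _
      _ ≤ (C * 1) * 1 := by
          have := hAS n
          gcongr
      _ = C := by ring
  have hβS : ∀ n, ((inner ℂ ((A n * S ^ n) (S y)) (S y))).re ≤ K ^ 2 * β n + C * ‖e‖ := by
    intro n
    have hc : (A n * S ^ n) * S = S * (A n * S ^ n) := by
      have h1 : Commute (A n * S ^ n) S := (hcomm n).mul_left ((Commute.refl S).pow_left n)
      exact h1
    have h2 : (A n * S ^ n) (S y) = S ((A n * S ^ n) y) := by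
      have := congrArg (fun F : H →L[ℂ] H => F y) hc
      simpa using this
    have h3 : (inner ℂ ((A n * S ^ n) (S y)) (S y)) = (inner ℂ ((A n * S ^ n) y) ((star S) (S y))) := by
      rw [h2, ContinuousLinearMap.star_eq_adjoint, ContinuousLinearMap.adjoint_inner_right]
    have h4 : (star S) (S y) = ((K ^ 2 : ℝ) : ℂ) • y + e := by rw [he]; abel
    rw [h3, h4, inner_add_right, inner_smul_right, Complex.add_re, Complex.re_ofReal_mul]
    have h5 : ((inner ℂ ((A n * S ^ n) y) e)).re ≤ C * ‖e‖ := by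
      calc ((inner ℂ ((A n * S ^ n) y) e)).re ≤ ‖(inner ℂ ((A n * S ^ n) y) e)‖ := Complex.re_le_norm _
        _ ≤ ‖(A n * S ^ n) y‖ * ‖e‖ := norm_inner_le_norm _ _
        _ ≤ (‖A n * S ^ n‖ * ‖y‖) * ‖e‖ := by gcongr; exact le_opNorm _ _
        _ ≤ (C * 1) * ‖e‖ := by
          have := hAS n
          gcongr
        _ = C * ‖e‖ := by ring
    linarith
  -- the one step inequality
  set D : ℝ := K ^ 2 * (K - 2) - (K - 1) * (K ^ 2 - ‖S y‖ ^ 2) - C * ‖e‖ + K * β 1 with hD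
  have hy2 : ‖y‖ ^ 2 ≤ 1 := by
    have := pow_le_pow_left₀ (norm_nonneg y) hy 2
    simpa using this
  have step : ∀ n, 1 ≤ n → D ≤ s * (K ^ 2 * β n - K * β (n + 1)) := by
    intro n hn
    have h := basic_ineq S A hcomm hpos K s hs0.le hsK y n hn
    have h1 := hβS n
    have h2 : s * (((inner ℂ ((A n * S ^ n) (S y)) (S y))).re) ≤ s * (K ^ 2 * β n + C * ‖e‖) :=
      mul_le_mul_of_nonneg_left h1 hs0.le
    have h3 : s * (C * ‖e‖) ≤ C * ‖e‖ := by
      have : 0 ≤ C * ‖e‖ := by positivity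
      nlinarith
    have h4 : K ^ 2 * ‖y‖ ^ 2 ≤ K ^ 2 := by nlinarith [sq_nonneg K]
    have h5 : ((inner ℂ ((A 1 * S ^ 1) y) y)).re = β 1 := rfl
    have h6 : ((inner ℂ ((A (n + 1) * S ^ (n + 1)) y) y)).re = β (n + 1) := rfl
    rw [h5, h6] at h
    rw [hD]
    nlinarith [h, h2, h3, h4]
  -- summation
  have hKpos : 0 < K := by linarith
  have sum : ∀ N : ℕ, D * (1 - (K⁻¹) ^ N) ≤ K * β 1 - K * ((K⁻¹) ^ N * β (N + 1)) := by
    intro N
    induction N with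
    | zero => simp
    | succ N ih =>
      have h := step (N + 1) (by omega)
      have hp : 0 < (K⁻¹) ^ N := by positivity
      have hp1 : (K⁻¹) ^ (N + 1) = (K⁻¹) ^ N * K⁻¹ := pow_succ _ _
      -- multiply `h` by `(K-1) K^{-(N+1)}`
      have h' : D * ((K - 1) * (K⁻¹) ^ (N + 1))
          ≤ (K ^ 2 * β (N + 1) - K * β (N + 1 + 1)) * (K⁻¹) ^ (N + 1) := by
        have h7 := mul_le_mul_of_nonneg_right h
          (show 0 ≤ (K - 1) * (K⁻¹) ^ (N + 1) by positivity)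
        calc D * ((K - 1) * (K⁻¹) ^ (N + 1))
            ≤ s * (K ^ 2 * β (N + 1) - K * β (N + 1 + 1)) * ((K - 1) * (K⁻¹) ^ (N + 1)) := h7
          _ = (s * (K - 1)) * ((K ^ 2 * β (N + 1) - K * β (N + 1 + 1)) * (K⁻¹) ^ (N + 1)) := by
              ring
          _ = _ := by rw [hsK', one_mul]
      have e1 : (1 - (K⁻¹) ^ (N + 1)) = (1 - (K⁻¹) ^ N) + (K - 1) * (K⁻¹) ^ (N + 1) := by
        rw [hp1]; field_simp; ring
      have e2 : (K ^ 2 * β (N + 1) - K * β (N + 1 + 1)) * (K⁻¹) ^ (N + 1)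
          = K * ((K⁻¹) ^ N * β (N + 1)) - K * ((K⁻¹) ^ (N + 1) * β (N + 1 + 1)) := by
        rw [hp1]; field_simp
      rw [e1, mul_add]
      rw [e2] at h'
      linarith
  -- limit
  have hlim : Tendsto (fun N : ℕ => (K⁻¹) ^ N) atTop (𝓝 0) :=
    tendsto_pow_atTop_nhds_zero_of_lt_one (by positivity)
      (inv_lt_one_of_one_lt₀ (by linarith))
  have hlim2 : Tendsto (fun N : ℕ => (K⁻¹) ^ N * β (N + 1)) atTop (𝓝 0) := by
    apply squeeze_zero_norm (a := fun N : ℕ => (K⁻¹) ^ N * C)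
    · intro N
      rw [norm_mul, Real.norm_of_nonneg (by positivity)]
      exact mul_le_mul_of_nonneg_left (hβb _) (by positivity)
    · simpa using hlim.mul_const C
  have hfin : D * (1 - 0) ≤ K * β 1 - K * 0 :=
    le_of_tendsto_of_tendsto' ((tendsto_const_nhds.sub hlim).const_mul D)
      (tendsto_const_nhds.sub (hlim2.const_mul K)) sum
  rw [hD] at hfin
  linarith

/-- **Main abstract inequality.** -/
theorem norm_le_two (S : H →L[ℂ] H) (A : ℕ → H →L[ℂ] H) (C : ℝ)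
    (hcomm : ∀ n, Commute (A n) S) (hAS : ∀ n, ‖A n * S ^ n‖ ≤ C)
    (hpos : ToeplitzPos (fun n => S ^ n + star (A n))) : ‖S‖ ≤ 2 := by
  by_contra hcon
  push Not at hcon
  set K := ‖S‖ with hK
  have hC : 0 ≤ C := le_trans (norm_nonneg _) (hAS 0)
  have key : ∀ δ : ℝ, 0 < δ → δ < 1 → K ^ 2 * (K - 2) ≤ (K - 1) * (2 * K * δ)
      + C * (K * Real.sqrt (2 * K * δ)) := by
    intro δ hδ hδ1
    obtain ⟨y, hy1, hy2⟩ : ∃ y : H, ‖y‖ < 1 ∧ K - δ < ‖S y‖ :=
      ContinuousLinearMap.exists_lt_apply_of_lt_opNorm S (by rw [← hK]; linarith)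
    have h := summed S A C hcomm hAS hpos K hcon y hy1.le
    have h1 : K ^ 2 - ‖S y‖ ^ 2 ≤ 2 * K * δ := by
      have : (K - δ) ^ 2 ≤ ‖S y‖ ^ 2 := pow_le_pow_left₀ (by linarith) hy2.le 2
      nlinarith [sq_nonneg δ]
    have h2 := adjoint_near S K le_rfl y hy1.le
    have h3 : ‖(star S) (S y) - ((K ^ 2 : ℝ) : ℂ) • y‖ ≤ K * Real.sqrt (2 * K * δ) := by
      apply le_of_sq_le_sq _ (by positivity)
      rw [mul_pow, Real.sq_sqrt (by positivity)]
      calc _ ≤ _ := h2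
        _ ≤ _ := by gcongr
    have h4 : (K - 1) * (K ^ 2 - ‖S y‖ ^ 2) ≤ (K - 1) * (2 * K * δ) :=
      mul_le_mul_of_nonneg_left h1 (by linarith)
    have h5 := mul_le_mul_of_nonneg_left h3 hC
    linarith
  have hlim : Tendsto (fun δ : ℝ => (K - 1) * (2 * K * δ) + C * (K * Real.sqrt (2 * K * δ)))
      (𝓝[>] 0) (𝓝 ((K - 1) * (2 * K * 0) + C * (K * Real.sqrt (2 * K * 0)))) := by
    apply Tendsto.mono_left _ nhdsWithin_le_nhds
    have : Continuous (fun δ : ℝ => (K - 1) * (2 * K * δ) + C * (K * Real.sqrt (2 * K * δ))) := by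
      fun_prop
    exact this.tendsto 0
  have hle : K ^ 2 * (K - 2) ≤ (K - 1) * (2 * K * 0) + C * (K * Real.sqrt (2 * K * 0)) := by
    apply ge_of_tendsto hlim
    filter_upwards [Ioo_mem_nhdsGT (show (0 : ℝ) < 1 by norm_num)] with δ hδ
    exact key δ hδ.1 hδ.2
  simp only [mul_zero, Real.sqrt_zero, add_zero] at hle
  have : 0 < K ^ 2 * (K - 2) := by
    have : 0 < K - 2 := by linarith
    positivity
  linarith

end Pool.Agent.Crouzeix

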