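import Mathlib

/-!
# `∂̄`-calculus for compactly supported functions
-/

set_option autoImplicit false

open Filter Topology MeasureTheory Set
open scoped ComplexConjugate

namespace Pool.Agent.Crouzeix

/-- the `∂̄` derivative of a function on `ℂ` -/
noncomputable def dbar (χ : ℂ → ℂ) (z : ℂ) : ℂ :=
  (1 / 2 : ℂ) * (fderiv ℝ χ z 1 + Complex.I * fderiv ℝ χ z Complex.I)

section basic

variable {χ ψ : ℂ → ℂ}

lemma continuous_dbar (hχ : ContDiff ℝ 1 χ) : Continuous (dbar χ) := by
  have h : Continuous (fderiv ℝ χ) := hχ.continuous_fderiv one_ne_zero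
  unfold dbar
  fun_prop

lemma dbar_eq_zero_of_eventuallyEq_const {c : ℂ} {z : ℂ} (h : χ =ᶠ[𝓝 z] fun _ => c) :
    dbar χ z = 0 := by
  have : fderiv ℝ χ z = 0 := by
    rw [h.fderiv_eq]; simp
  simp [dbar, this]

lemma dbar_eq_zero_of_notMem_tsupport {z : ℂ} (h : z ∉ tsupport χ) : dbar χ z = 0 :=
  dbar_eq_zero_of_eventuallyEq_const (c := 0) (notMem_tsupport_iff_eventuallyEq.mp h)

lemma support_dbar_subset : Function.support (dbar χ) ⊆ tsupport χ := by
  intro z hz
  by_contra h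
  exact hz (dbar_eq_zero_of_notMem_tsupport h)

lemma tsupport_dbar_subset : tsupport (dbar χ) ⊆ tsupport χ :=
  closure_minimal support_dbar_subset (isClosed_tsupport _)

lemma hasCompactSupport_dbar (h : HasCompactSupport χ) : HasCompactSupport (dbar χ) :=
  HasCompactSupport.of_support_subset_isCompact h support_dbar_subset

/-- if `χ` is constant on an open set `U`, the support of `dbar χ` avoids `U` -/
lemma tsupport_dbar_subset_compl {U : Set ℂ} (hU : IsOpen U) {c : ℂ}
    (h : EqOn χ (fun _ => c) U) : tsupport (dbar χ) ⊆ Uᶜ := by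
  apply closure_minimal _ hU.isClosed_compl
  intro z hz hzU
  exact hz (dbar_eq_zero_of_eventuallyEq_const (h.eventuallyEq_of_mem (hU.mem_nhds hzU)))

lemma dbar_sub (hχ : Differentiable ℝ χ) (hψ : Differentiable ℝ ψ) (z : ℂ) :
    dbar (fun z => χ z - ψ z) z = dbar χ z - dbar ψ z := by
  have : fderiv ℝ (fun z => χ z - ψ z) z = fderiv ℝ χ z - fderiv ℝ ψ z :=
    fderiv_fun_sub (hχ z) (hψ z)
  simp only [dbar, this, sub_apply]
  ring

end basic

section stokes

variable {E : Type*} [NormedAddCommGroup E] [NormedSpace ℂ E]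

lemma continuous_smul_of_tsupport {φ : ℂ → ℂ} {h : ℂ → E} {O : Set ℂ} (hO : IsOpen O)
    (hφ : Continuous φ) (hs : tsupport φ ⊆ O) (hh : ContinuousOn h O) :
    Continuous (fun z => φ z • h z) := by
  apply continuous_of_tsupport
  intro z hz
  have hz' : z ∈ O := hs (tsupport_smul_subset_left φ h hz)
  exact hφ.continuousAt.smul (hh.continuousAt (hO.mem_nhds hz'))

lemma integrable_smul_of_tsupport {φ : ℂ → ℂ} {h : ℂ → E} {O : Set ℂ} (hO : IsOpen O)
    (hφ : Continuous φ) (hc : HasCompactSupport φ) (hs : tsupport φ ⊆ O)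
    (hh : ContinuousOn h O) : Integrable (fun z => φ z • h z) :=
  (continuous_smul_of_tsupport hO hφ hs hh).integrable_of_hasCompactSupport hc.smul_right

variable [CompleteSpace E]

/-- **Stokes**: `∫ ∂̄ψ • h = 0` for `h` holomorphic near the support of `ψ`. -/
theorem integral_dbar_smul_eq_zero {ψ : ℂ → ℂ} {h : ℂ → E} {O : Set ℂ} (hO : IsOpen O)
    (hψ : ContDiff ℝ 1 ψ) (hc : HasCompactSupport ψ) (hs : tsupport ψ ⊆ O)
    (hh : DifferentiableOn ℂ h O) : ∫ z, dbar ψ z • h z = 0 := by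
  have hd : DifferentiableOn ℂ (deriv h) O := hh.deriv hO
  have hfd : ∀ (z : ℂ), z ∈ O → ∀ v : ℂ, fderiv ℝ h z v = v • deriv h z := by
    intro z hz v
    have h1 : HasDerivAt h (deriv h z) z := (hh.differentiableAt (hO.mem_nhds hz)).hasDerivAt
    have h2 : fderiv ℝ h z = (ContinuousLinearMap.toSpanSingleton ℂ (deriv h z)).restrictScalars ℝ :=
      (h1.hasFDerivAt.restrictScalars ℝ).fderiv
    rw [h2]; simp
  have hcf : Continuous (fderiv ℝ ψ) := hψ.continuous_fderiv one_ne_zero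
  have key : ∀ v : ℂ, ∫ z, fderiv ℝ ψ z v • h z = - (v • ∫ z, ψ z • deriv h z) := by
    intro v
    have hcv : Continuous (fun z => fderiv ℝ ψ z v) := by fun_prop
    have hsv : tsupport (fun z => fderiv ℝ ψ z v) ⊆ tsupport ψ :=
      tsupport_fderiv_apply_subset ℝ v
    have hccv : HasCompactSupport (fun z => fderiv ℝ ψ z v) := hc.fderiv_apply ℝ v
    have e1 : (fun z => ψ z • fderiv ℝ h z v) = fun z => ψ z • (v • deriv h z) := by
      funext z
      by_cases hz : z ∈ tsupport ψ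
      · rw [hfd z (hs hz)]
      · rw [image_eq_zero_of_notMem_tsupport hz]; simp
    have i1 : Integrable (fun z => fderiv ℝ ψ z v • h z) :=
      integrable_smul_of_tsupport hO hcv hccv (hsv.trans hs) hh.continuousOn
    have i2 : Integrable (fun z => ψ z • fderiv ℝ h z v) := by
      rw [e1]
      exact integrable_smul_of_tsupport hO hψ.continuous hc hs
        (hd.continuousOn.const_smul v)
    have i3 : Integrable (fun z => ψ z • h z) :=
      integrable_smul_of_tsupport hO hψ.continuous hc hs hh.continuousOn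
    have := integral_smul_fderiv_eq_neg_fderiv_smul_of_integrable (μ := volume) i1 i2 i3
      (fun x _ => hψ.differentiable one_ne_zero x)
      (fun x hx => ((hh.differentiableAt (hO.mem_nhds (hs hx))).restrictScalars ℝ))
    rw [eq_neg_iff_add_eq_zero, add_comm, ← eq_neg_iff_add_eq_zero] at this
    rw [this, e1]
    congr 1
    rw [← integral_smul]
    apply integral_congr_ae
    filter_upwards with z
    rw [smul_comm]
  have i1 : Integrable (fun z => fderiv ℝ ψ z 1 • h z) :=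
    integrable_smul_of_tsupport hO (by fun_prop) (hc.fderiv_apply ℝ 1)
      ((tsupport_fderiv_apply_subset ℝ 1).trans hs) hh.continuousOn
  have i2 : Integrable (fun z => fderiv ℝ ψ z Complex.I • h z) :=
    integrable_smul_of_tsupport hO (by fun_prop) (hc.fderiv_apply ℝ Complex.I)
      ((tsupport_fderiv_apply_subset ℝ Complex.I).trans hs) hh.continuousOn
  have e2 : (fun z => dbar ψ z • h z) = fun z => (1 / 2 : ℂ) • (fderiv ℝ ψ z 1 • h z
      + Complex.I • (fderiv ℝ ψ z Complex.I • h z)) := by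
    funext z
    simp only [dbar, mul_smul, add_smul]
  have i2' : Integrable (fun z => Complex.I • (fderiv ℝ ψ z Complex.I • h z)) :=
    i2.smul Complex.I
  rw [e2, integral_smul, integral_add i1 i2', integral_smul, key 1, key Complex.I]
  rw [smul_neg, smul_smul, Complex.I_mul_I]
  simp

end stokes

section radial

/-- a smooth radial cutoff profile: `1` on `t ≤ 1`, `0` on `t ≥ 2` -/
noncomputable def rho (t : ℝ) : ℝ := Real.smoothTransition (2 - t)

lemma contDiff_rho : ContDiff ℝ 1 rho :=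
  (Real.smoothTransition.contDiff (n := 1)).comp (contDiff_const.sub contDiff_id)

lemma rho_one {t : ℝ} (ht : t ≤ 1) : rho t = 1 :=
  Real.smoothTransition.one_of_one_le (by linarith)

lemma rho_zero {t : ℝ} (ht : 2 ≤ t) : rho t = 0 :=
  Real.smoothTransition.zero_of_nonpos (by linarith)

/-- the standard radial cutoff at `w` of radius `R` -/
noncomputable def cut (w : ℂ) (R : ℝ) (z : ℂ) : ℂ := ((rho (‖z - w‖ ^ 2 / R ^ 2) : ℝ) : ℂ)

lemma contDiff_cut (w : ℂ) (R : ℝ) : ContDiff ℝ 1 (cut w R) := by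
  have h1 : ContDiff ℝ 1 (fun z : ℂ => ‖z - w‖ ^ 2 / R ^ 2) := by
    apply ContDiff.div_const
    exact (contDiff_norm_sq ℝ).comp (contDiff_id.sub contDiff_const)
  exact Complex.ofRealCLM.contDiff.comp (contDiff_rho.comp h1)

lemma cut_eq_one {w z : ℂ} {R : ℝ} (hR : 0 < R) (h : ‖z - w‖ ≤ R) : cut w R z = 1 := by
  have : ‖z - w‖ ^ 2 / R ^ 2 ≤ 1 := by
    rw [div_le_one (by positivity)]
    exact pow_le_pow_left₀ (norm_nonneg _) h 2
  simp [cut, rho_one this]

lemma cut_eq_zero {w z : ℂ} {R : ℝ} (hR : 0 < R) (h : 2 * R ≤ ‖z - w‖) : cut w R z = 0 := by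
  have : 2 ≤ ‖z - w‖ ^ 2 / R ^ 2 := by
    rw [le_div_iff₀ (by positivity)]
    nlinarith [pow_le_pow_left₀ (by positivity) h 2, sq_nonneg R]
  simp [cut, rho_zero this]

lemma hasCompactSupport_cut (w : ℂ) {R : ℝ} (hR : 0 < R) : HasCompactSupport (cut w R) := by
  apply HasCompactSupport.of_support_subset_isCompact (isCompact_closedBall w (2 * R))
  intro z hz
  by_contra h
  rw [Metric.mem_closedBall, not_le, dist_eq_norm] at h
  exact hz (cut_eq_zero hR h.le)

lemma dbar_cut (w : ℂ) (R : ℝ) (z : ℂ) :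
    dbar (cut w R) z = ((deriv rho (‖z - w‖ ^ 2 / R ^ 2) / R ^ 2 : ℝ) : ℂ) * (z - w) := by
  have h1 : HasFDerivAt (fun z : ℂ => ‖z - w‖ ^ 2) (2 • (innerSL ℝ (z - w))) z := by
    have := (hasStrictFDerivAt_norm_sq (z - w)).hasFDerivAt.comp z
      ((hasFDerivAt_id (𝕜 := ℝ) z).sub_const w)
    simpa [Function.comp_def] using this
  have h2 : HasFDerivAt (fun z : ℂ => ‖z - w‖ ^ 2 / R ^ 2)
      ((R ^ 2)⁻¹ • (2 • (innerSL ℝ (z - w)))) z := by
    simpa [div_eq_inv_mul] using h1.const_mul ((R ^ 2)⁻¹)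
  have h3 : HasDerivAt rho (deriv rho (‖z - w‖ ^ 2 / R ^ 2)) (‖z - w‖ ^ 2 / R ^ 2) :=
    (contDiff_rho.differentiable one_ne_zero _).hasDerivAt
  have h4 := h3.comp_hasFDerivAt z h2
  have h5 : HasFDerivAt (cut w R) _ z := (Complex.ofRealCLM.hasFDerivAt).comp z h4
  rw [dbar, h5.fderiv]
  have hz : z - w = ((z.re - w.re : ℝ) : ℂ) + Complex.I * ((z.im - w.im : ℝ) : ℂ) := by
    apply Complex.ext <;> simp
  simp only [ContinuousLinearMap.coe_comp, Function.comp_apply, smul_apply, innerSL_apply_apply,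
    Complex.ofRealCLM_apply]
  have e1 : inner ℝ (z - w) 1 = z.re - w.re := by simp [Complex.inner]
  have e2 : inner ℝ (z - w) Complex.I = z.im - w.im := by simp [Complex.inner]; ring
  rw [e1, e2]
  generalize deriv rho (‖z - w‖ ^ 2 / R ^ 2) = D
  rw [hz]
  simp only [smul_eq_mul, nsmul_eq_mul]
  push_cast
  ring

lemma deriv_rho_zero : deriv rho 0 = 0 := by
  have : rho =ᶠ[𝓝 0] fun _ => 1 := by
    filter_upwards [Iio_mem_nhds (show (0 : ℝ) < 1 by norm_num)] with t ht
    exact rho_one (le_of_lt ht)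
  rw [this.deriv_eq]; simp

/-- the normalisation constant -/
theorem integral_dbar_cut (w : ℂ) {R : ℝ} (hR : 0 < R) :
    ∫ z, dbar (cut w R) z * (z - w)⁻¹ = -(Real.pi : ℂ) := by
  have e1 : (fun z => dbar (cut w R) z * (z - w)⁻¹)
      = fun z => (fun u : ℂ => ((deriv rho (‖u‖ ^ 2 / R ^ 2) / R ^ 2 : ℝ) : ℂ)) (z - w) := by
    funext z
    rw [dbar_cut]
    by_cases hz : z - w = 0
    · simp [hz, deriv_rho_zero]
    · rw [mul_assoc, mul_inv_cancel₀ hz, mul_one]
  rw [e1, integral_sub_right_eq_self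
    (fun u : ℂ => ((deriv rho (‖u‖ ^ 2 / R ^ 2) / R ^ 2 : ℝ) : ℂ)) w, integral_complex_ofReal,
    ← Complex.integral_comp_polarCoord_symm]
  have e2 : ∀ p ∈ polarCoord.target,
      p.1 • (deriv rho (‖Complex.polarCoord.symm p‖ ^ 2 / R ^ 2) / R ^ 2)
        = (p.1 * (deriv rho (p.1 ^ 2 / R ^ 2) / R ^ 2)) * (fun _ : ℝ => (1 : ℝ)) p.2 := by
    intro p _
    rw [Complex.norm_polarCoord_symm, sq_abs]; simp
  rw [setIntegral_congr_fun polarCoord.open_target.measurableSet e2]
  have e3 : polarCoord.target = Ioi (0 : ℝ) ×ˢ Ioo (-Real.pi) Real.pi := rfl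
  rw [e3, Measure.volume_eq_prod,
    setIntegral_prod_mul (fun r : ℝ => r * (deriv rho (r ^ 2 / R ^ 2) / R ^ 2))
      (fun _ : ℝ => (1 : ℝ)) (Ioi (0 : ℝ)) (Ioo (-Real.pi) Real.pi)]
  have hf : ContDiff ℝ 1 (fun r : ℝ => rho (r ^ 2 / R ^ 2)) :=
    contDiff_rho.comp ((contDiff_id.pow 2).div_const _)
  have hfc : HasCompactSupport (fun r : ℝ => rho (r ^ 2 / R ^ 2)) := by
    apply HasCompactSupport.of_support_subset_isCompact (isCompact_Icc (a := -(2 * R)) (b := 2 * R))
    intro r hr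
    by_contra h
    have hr2 : 2 * R ≤ |r| := by
      by_contra h'
      push Not at h'
      exact h ⟨(abs_lt.mp h').1.le, (abs_lt.mp h').2.le⟩
    apply hr
    apply rho_zero
    rw [le_div_iff₀ (by positivity), ← sq_abs r]
    nlinarith [pow_le_pow_left₀ (by positivity) hr2 2, sq_nonneg R]
  have hderiv : ∀ r : ℝ, deriv (fun r : ℝ => rho (r ^ 2 / R ^ 2)) r
      = 2 * (r * (deriv rho (r ^ 2 / R ^ 2) / R ^ 2)) := by
    intro r
    have h1 : HasDerivAt (fun r : ℝ => r ^ 2 / R ^ 2) (2 * r / R ^ 2) r := by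
      simpa using (hasDerivAt_pow 2 r).div_const (R ^ 2)
    have h2 : HasDerivAt rho (deriv rho (r ^ 2 / R ^ 2)) (r ^ 2 / R ^ 2) :=
      (contDiff_rho.differentiable one_ne_zero _).hasDerivAt
    have h3 := (h2.comp r h1).deriv
    simp only [Function.comp_def] at h3
    rw [h3]; ring
  have h4 := hfc.integral_Ioi_deriv_eq hf 0
  simp only [hderiv] at h4
  rw [integral_const_mul] at h4
  have h5 : rho ((0 : ℝ) ^ 2 / R ^ 2) = 1 := rho_one (by simp)
  rw [h5] at h4
  have h6 : ∫ x in Ioi (0 : ℝ), x * (deriv rho (x ^ 2 / R ^ 2) / R ^ 2) = -1 / 2 := by linarith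
  rw [h6]
  have h7 : ∫ _y in Ioo (-Real.pi) Real.pi, (1 : ℝ) = 2 * Real.pi := by
    simp only [integral_const, MeasurableSet.univ, measureReal_restrict_apply, univ_inter,
      Real.volume_real_Ioo, smul_eq_mul, mul_one]
    rw [max_eq_left (by linarith [Real.pi_pos])]; ring
  rw [h7]
  push_cast
  ring

end radial

end Pool.Agent.Crouzeix
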