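import Mathlib
import Pool.Agent.Crouzeix.Dbar

/-!
# Holomorphic functional calculus through the `∂̄`-formula
-/

set_option autoImplicit false

open Filter Topology MeasureTheory Set
open scoped ComplexConjugate

namespace Pool.Agent.Crouzeix

/-- `χ` is a `C¹` cutoff with support in `Ω`, equal to `1` near `F`. -/
structure IsCutoff (Ω F : Set ℂ) (χ : ℂ → ℂ) : Prop where
  contDiff : ContDiff ℝ 1 χ
  compact : HasCompactSupport χ
  supp : tsupport χ ⊆ Ω
  one : ∃ U : Set ℂ, IsOpen U ∧ F ⊆ U ∧ EqOn χ (fun _ => 1) U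

namespace IsCutoff

variable {Ω F : Set ℂ} {χ : ℂ → ℂ}

lemma mono {Ω' F' : Set ℂ} (h : IsCutoff Ω F χ) (hΩ : Ω ⊆ Ω') (hF : F' ⊆ F) :
    IsCutoff Ω' F' χ := by
  obtain ⟨U, hU, hFU, h1⟩ := h.one
  exact ⟨h.contDiff, h.compact, h.supp.trans hΩ, U, hU, hF.trans hFU, h1⟩

lemma tsupport_dbar (h : IsCutoff Ω F χ) : tsupport (dbar χ) ⊆ Ω \ F := by
  obtain ⟨U, hU, hFU, h1⟩ := h.one
  intro z hz
  exact ⟨h.supp (tsupport_dbar_subset hz), fun hF =>
    tsupport_dbar_subset_compl hU h1 hz (hFU hF)⟩

lemma subset_tsupport (h : IsCutoff Ω F χ) : F ⊆ tsupport χ := by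
  obtain ⟨U, hU, hFU, h1⟩ := h.one
  intro z hz
  apply _root_.subset_tsupport
  rw [Function.mem_support, h1 (hFU hz)]
  exact one_ne_zero

end IsCutoff

lemma exists_cutoff {Ω K : Set ℂ} (hΩ : IsOpen Ω) (hK : IsCompact K) (hKΩ : K ⊆ Ω) :
    ∃ χ : ℂ → ℂ, IsCutoff Ω K χ := by
  obtain ⟨V, hV, hKV, hVΩ, hVc⟩ := exists_open_between_and_isCompact_closure hK hΩ hKΩ
  obtain ⟨W, hW, hKW, hWV, hWc⟩ := exists_open_between_and_isCompact_closure hK hV hKV
  obtain ⟨f, hf, -, hfs, hf1⟩ := exists_contMDiff_support_eq_eq_one_iff (n := 1)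
    (modelWithCornersSelf ℝ ℂ) hV isClosed_closure hWV
  refine ⟨fun z => ((f z : ℝ) : ℂ), ?_, ?_, ?_, W, hW, hKW, ?_⟩
  · exact Complex.ofRealCLM.contDiff.comp (contMDiff_iff_contDiff.mp hf)
  · apply HasCompactSupport.of_support_subset_isCompact hVc
    intro z hz
    apply subset_closure
    rw [← hfs]
    intro h
    apply hz
    simp [h]
  · refine (closure_mono ?_).trans hVΩ
    intro z hz
    rw [← hfs]
    intro h
    apply hz
    simp [h]
  · intro z hz
    have := (hf1 z).mp (subset_closure hz)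
    simp [this]

section indep

variable {E : Type*} [NormedAddCommGroup E] [NormedSpace ℂ E]

lemma IsCutoff.integrable {Ω F : Set ℂ} {χ : ℂ → ℂ} {h : ℂ → E} (hΩ : IsOpen Ω)
    (hF : IsClosed F) (hχ : IsCutoff Ω F χ) (hh : ContinuousOn h (Ω \ F)) :
    Integrable (fun z => dbar χ z • h z) :=
  integrable_smul_of_tsupport (hΩ.sdiff hF) (continuous_dbar hχ.contDiff)
    (hasCompactSupport_dbar hχ.compact) hχ.tsupport_dbar hh

lemma integral_dbar_indep [CompleteSpace E] {Ω F : Set ℂ} {χ₁ χ₂ : ℂ → ℂ} {h : ℂ → E}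
    (hΩ : IsOpen Ω)
    (hF : IsClosed F) (h₁ : IsCutoff Ω F χ₁) (h₂ : IsCutoff Ω F χ₂)
    (hh : DifferentiableOn ℂ h (Ω \ F)) :
    ∫ z, dbar χ₁ z • h z = ∫ z, dbar χ₂ z • h z := by
  have i1 := h₁.integrable hΩ hF hh.continuousOn
  have i2 := h₂.integrable hΩ hF hh.continuousOn
  rw [← sub_eq_zero, ← integral_sub i1 i2]
  have e : (fun z => dbar χ₁ z • h z - dbar χ₂ z • h z)
      = fun z => dbar (fun z => χ₁ z - χ₂ z) z • h z := by
    funext z
    rw [dbar_sub (h₁.contDiff.differentiable one_ne_zero) (h₂.contDiff.differentiable one_ne_zero),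
      sub_smul]
  rw [e]
  obtain ⟨U₁, hU₁, hFU₁, e₁⟩ := h₁.one
  obtain ⟨U₂, hU₂, hFU₂, e₂⟩ := h₂.one
  have hsupp : tsupport (fun z => χ₁ z - χ₂ z) ⊆ (tsupport χ₁ ∪ tsupport χ₂) ∩ (U₁ ∩ U₂)ᶜ := by
    apply closure_minimal
    · intro z hz
      refine ⟨?_, ?_⟩
      · by_contra hcon
        rw [mem_union, not_or] at hcon
        apply hz
        simp only
        rw [image_eq_zero_of_notMem_tsupport hcon.1, image_eq_zero_of_notMem_tsupport hcon.2,
          sub_zero]
      · intro hU
        apply hz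
        simp only
        rw [e₁ hU.1, e₂ hU.2, sub_self]
    · exact ((isClosed_tsupport _).union (isClosed_tsupport _)).inter
        (hU₁.inter hU₂).isClosed_compl
  apply integral_dbar_smul_eq_zero (hΩ.sdiff hF) (h₁.contDiff.sub h₂.contDiff)
    (h₁.compact.sub h₂.compact) _ hh
  intro z hz
  have := hsupp hz
  refine ⟨?_, fun hF' => this.2 ⟨hFU₁ hF', hFU₂ hF'⟩⟩
  rcases this.1 with h | h
  · exact h₁.supp h
  · exact h₂.supp h

end indep

lemma isCutoff_cut {F : Set ℂ} (w : ℂ) {R : ℝ} (hR : 0 < R) (hF : F ⊆ Metric.ball w R) :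
    IsCutoff univ F (cut w R) :=
  ⟨contDiff_cut w R, hasCompactSupport_cut w hR, subset_univ _, Metric.ball w R,
    Metric.isOpen_ball, hF, fun _ hz => cut_eq_one hR (by
      rw [Metric.mem_ball, dist_eq_norm] at hz; exact hz.le)⟩

/-- Cauchy's formula, cutoff form. -/
theorem cauchy_cutoff {Ω : Set ℂ} (hΩ : IsOpen Ω) {w : ℂ} {χ : ℂ → ℂ}
    (hχ : IsCutoff Ω {w} χ) {g : ℂ → ℂ} (hg : DifferentiableOn ℂ g Ω) :
    ∫ z, dbar χ z * (g z * (z - w)⁻¹) = -(Real.pi : ℂ) * g w := by
  have hwΩ : w ∈ Ω := hχ.supp (hχ.subset_tsupport rfl)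
  have hds : DifferentiableOn ℂ (dslope g w) Ω :=
    (Complex.differentiableOn_dslope (hΩ.mem_nhds hwΩ)).mpr hg
  have h1 : ∫ z, dbar χ z • dslope g w z = 0 :=
    integral_dbar_smul_eq_zero hΩ hχ.contDiff hχ.compact hχ.supp hds
  have hinv : DifferentiableOn ℂ (fun z : ℂ => (z - w)⁻¹) (univ \ {w}) := by
    intro z hz
    have : z - w ≠ 0 := sub_ne_zero.mpr hz.2
    exact ((differentiableAt_id.sub_const w).inv this).differentiableWithinAt
  have hχ' : IsCutoff univ {w} χ := hχ.mono (subset_univ _) subset_rfl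
  have h2 : ∫ z, dbar χ z • (z - w)⁻¹ = -(Real.pi : ℂ) := by
    rw [integral_dbar_indep isOpen_univ isClosed_singleton hχ'
      (isCutoff_cut w one_pos (by simp)) hinv]
    exact integral_dbar_cut w one_pos
  have i1 : Integrable (fun z => dbar χ z • dslope g w z) :=
    hχ.integrable hΩ isClosed_singleton (hds.continuousOn.mono sdiff_subset)
  have i2 : Integrable (fun z => dbar χ z • (z - w)⁻¹) :=
    hχ'.integrable isOpen_univ isClosed_singleton hinv.continuousOn
  have e : (fun z => dbar χ z * (g z * (z - w)⁻¹))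
      = fun z => dbar χ z • dslope g w z + (dbar χ z • (z - w)⁻¹) * g w := by
    funext z
    by_cases hz : z = w
    · have : dbar χ z = 0 := by
        apply image_eq_zero_of_notMem_tsupport
        intro h
        exact (hχ.tsupport_dbar h).2 hz
      rw [this]; simp
    · rw [dslope_of_ne g hz, slope_def_field]
      have : z - w ≠ 0 := sub_ne_zero.mpr hz
      simp only [smul_eq_mul]
      field_simp
      ring
  rw [e, integral_add i1 (i2.mul_const _), h1, integral_mul_const, h2, zero_add]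

section algebra

variable {A : Type*} [NormedRing A] [NormedAlgebra ℂ A] [CompleteSpace A]

lemma differentiableOn_resolvent (a : A) :
    DifferentiableOn ℂ (resolvent a) (univ \ spectrum ℂ a) := by
  intro z hz
  have : z ∈ resolventSet ℂ a := by
    have := hz.2
    rw [spectrum, notMem_compl_iff] at this
    exact this
  exact (spectrum.hasDerivAt_resolvent_const_left this).differentiableAt.differentiableWithinAt

omit [CompleteSpace A] in
lemma resolvent_mul_eq_one (a : A) {z : ℂ} (hz : z ∉ spectrum ℂ a) :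
    resolvent a z * (algebraMap ℂ A z - a) = 1 :=
  Ring.inverse_mul_cancel _ (by rwa [spectrum.notMem_iff] at hz)

omit [CompleteSpace A] in
lemma mul_resolvent_eq_one (a : A) {z : ℂ} (hz : z ∉ spectrum ℂ a) :
    (algebraMap ℂ A z - a) * resolvent a z = 1 :=
  Ring.mul_inverse_cancel _ (by rwa [spectrum.notMem_iff] at hz)

omit [CompleteSpace A] in
lemma resolvent_mul_resolvent (a : A) {z w : ℂ} (hz : z ∉ spectrum ℂ a)
    (hw : w ∉ spectrum ℂ a) :
    (w - z) • (resolvent a z * resolvent a w) = resolvent a z - resolvent a w := by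
  have h1 : (w - z) • (1 : A) = (algebraMap ℂ A w - a) - (algebraMap ℂ A z - a) := by
    rw [sub_sub_sub_cancel_right, Algebra.algebraMap_eq_smul_one, Algebra.algebraMap_eq_smul_one,
      sub_smul]
  calc (w - z) • (resolvent a z * resolvent a w)
      = resolvent a z * ((w - z) • (1 : A)) * resolvent a w := by
        rw [mul_smul_comm, mul_one, smul_mul_assoc]
    _ = resolvent a z * ((algebraMap ℂ A w - a) - (algebraMap ℂ A z - a)) * resolvent a w := by
        rw [h1]
    _ = resolvent a z * ((algebraMap ℂ A w - a) * resolvent a w)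
        - (resolvent a z * (algebraMap ℂ A z - a)) * resolvent a w := by noncomm_ring
    _ = resolvent a z - resolvent a w := by
        rw [mul_resolvent_eq_one a hw, resolvent_mul_eq_one a hz, mul_one, one_mul]

lemma exists_bound_deriv_rho : ∃ D : ℝ, 0 ≤ D ∧ ∀ t, |deriv rho t| ≤ D := by
  have hc : HasCompactSupport (deriv rho) := by
    apply HasCompactSupport.of_support_subset_isCompact (isCompact_Icc (a := (1 : ℝ)) (b := 2))
    intro t ht
    by_contra h
    rw [mem_Icc, not_and_or, not_le, not_le] at h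
    apply ht
    rcases h with h | h
    · have : rho =ᶠ[𝓝 t] fun _ => 1 := by
        filter_upwards [Iio_mem_nhds h] with s hs
        exact rho_one (le_of_lt hs)
      rw [this.deriv_eq]; simp
    · have : rho =ᶠ[𝓝 t] fun _ => 0 := by
        filter_upwards [Ioi_mem_nhds h] with s hs
        exact rho_zero (le_of_lt hs)
      rw [this.deriv_eq]; simp
  obtain ⟨D, hD⟩ := hc.exists_bound_of_continuous (contDiff_rho.continuous_deriv le_rfl)
  exact ⟨D, le_trans (norm_nonneg _) (hD 0), fun t => hD t⟩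

lemma dbar_cut_eq_zero_of_lt {R : ℝ} (hR : 0 < R) {z : ℂ} (hz : ‖z‖ < R) :
    dbar (cut 0 R) z = 0 := by
  apply dbar_eq_zero_of_eventuallyEq_const (c := 1)
  filter_upwards [(isOpen_lt continuous_norm continuous_const).mem_nhds hz] with u hu
  exact cut_eq_one hR (by simpa using (le_of_lt hu))

lemma dbar_cut_eq_zero_of_gt {R : ℝ} (hR : 0 < R) {z : ℂ} (hz : 2 * R < ‖z‖) :
    dbar (cut 0 R) z = 0 := by
  apply dbar_eq_zero_of_eventuallyEq_const (c := 0)
  filter_upwards [(isOpen_lt continuous_const continuous_norm).mem_nhds hz] with u hu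
  exact cut_eq_zero hR (by simpa using (le_of_lt hu))

/-- the normalised operator integral -/
theorem integral_dbar_resolvent (a : A) {χ : ℂ → ℂ} (hχ : IsCutoff univ (spectrum ℂ a) χ) :
    ∫ z, dbar χ z • resolvent a z = -(Real.pi : ℂ) • (1 : A) := by
  obtain ⟨D, hD0, hD⟩ := exists_bound_deriv_rho
  -- resolvent bound at infinity
  obtain ⟨C, hC⟩ := (spectrum.resolvent_isBigO_inv (𝕜 := ℂ) a).bound
  rw [← comap_norm_atTop, eventually_comap] at hC
  obtain ⟨R₀, hR₀⟩ := eventually_atTop.mp hC
  have hCb : ∀ z : ℂ, R₀ ≤ ‖z‖ → ‖resolvent a z‖ ≤ |C| * ‖z‖⁻¹ := by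
    intro z hz
    have := hR₀ ‖z‖ hz z rfl
    rw [norm_inv] at this
    exact this.trans (mul_le_mul_of_nonneg_right (le_abs_self C) (by positivity))
  set R₁ : ℝ := max 1 (max R₀ (‖a‖ * ‖(1 : A)‖ + 1)) with hR₁
  have hspec : ∀ z : ℂ, R₁ ≤ ‖z‖ → z ∉ spectrum ℂ a := by
    intro z hz h
    have h1 : ‖a‖ * ‖(1 : A)‖ < ‖z‖ := by
      have := le_trans (le_max_right _ _) (le_trans (le_max_right _ _) hz)
      linarith
    exact h (spectrum.mem_resolventSet_of_norm_lt_mul h1)
  have hR₁1 : 1 ≤ R₁ := le_max_left _ _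
  have hR₁0 : R₀ ≤ R₁ := le_trans (le_max_left _ _) (le_max_right _ _)
  set J : A := ∫ z, dbar χ z • resolvent a z with hJ
  have hF : IsClosed (spectrum ℂ a) := spectrum.isClosed a
  have main : ∀ R : ℝ, R₁ < R → ‖J + (Real.pi : ℂ) • (1 : A)‖
      ≤ (4 * Real.pi * D * |C| * ‖a‖) * R⁻¹ := by
    intro R hR
    have hRpos : 0 < R := by linarith
    have hsub : spectrum ℂ a ⊆ Metric.ball 0 R := by
      intro z hz
      by_contra h
      rw [Metric.mem_ball, dist_zero_right, not_lt] at h
      exact hspec z (by linarith) hz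
    have hcut : IsCutoff univ (spectrum ℂ a) (cut 0 R) := isCutoff_cut 0 hRpos hsub
    have h1 : J = ∫ z, dbar (cut 0 R) z • resolvent a z :=
      integral_dbar_indep isOpen_univ hF hχ hcut (differentiableOn_resolvent a)
    have i1 : Integrable (fun z => dbar (cut 0 R) z • resolvent a z) :=
      hcut.integrable isOpen_univ hF (differentiableOn_resolvent a).continuousOn
    have h2 : (∫ z, dbar (cut 0 R) z * (z - 0)⁻¹) = -(Real.pi : ℂ) := integral_dbar_cut 0 hRpos
    have i2 : Integrable (fun z => dbar (cut 0 R) z * (z - 0)⁻¹) := by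
      have hinv : ContinuousOn (fun z : ℂ => (z - 0)⁻¹) (univ \ {0}) := by
        intro z hz
        have : z - 0 ≠ 0 := sub_ne_zero.mpr hz.2
        exact ((continuousAt_id.sub continuousAt_const).inv₀ this).continuousWithinAt
      exact (isCutoff_cut (F := {0}) 0 hRpos (by simp [hRpos])).integrable isOpen_univ
        isClosed_singleton hinv
    have h3 : J + (Real.pi : ℂ) • (1 : A)
        = ∫ z, (dbar (cut 0 R) z • resolvent a z - (dbar (cut 0 R) z * (z - 0)⁻¹) • (1 : A)) := by
      rw [integral_sub i1 (i2.smul_const _), integral_smul_const, h2, h1, neg_smul, sub_neg_eq_add]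
    rw [h3]
    have hzero : ∀ z, z ∉ Metric.closedBall (0 : ℂ) (2 * R) →
        (dbar (cut 0 R) z • resolvent a z - (dbar (cut 0 R) z * (z - 0)⁻¹) • (1 : A)) = 0 := by
      intro z hz
      rw [Metric.mem_closedBall, dist_zero_right, not_le] at hz
      rw [dbar_cut_eq_zero_of_gt hRpos hz]; simp
    rw [← setIntegral_eq_integral_of_forall_compl_eq_zero hzero]
    have hbound : ∀ z ∈ Metric.closedBall (0 : ℂ) (2 * R),
        ‖(dbar (cut 0 R) z • resolvent a z - (dbar (cut 0 R) z * (z - 0)⁻¹) • (1 : A))‖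
          ≤ D * |C| * ‖a‖ / R ^ 3 := by
      intro z hz
      by_cases hzR : ‖z‖ < R
      · rw [dbar_cut_eq_zero_of_lt hRpos hzR]; simp; positivity
      · push Not at hzR
        have hz0 : z ≠ 0 := by
          intro h; rw [h, norm_zero] at hzR; linarith
        have hzpos : 0 < ‖z‖ := norm_pos_iff.mpr hz0
        have hzs : z ∉ spectrum ℂ a := hspec z (by linarith)
        have e1 : resolvent a z - (z - 0)⁻¹ • (1 : A) = z⁻¹ • (a * resolvent a z) := by
          have h4 := mul_resolvent_eq_one a hzs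
          rw [sub_mul, Algebra.algebraMap_eq_smul_one, smul_mul_assoc, one_mul] at h4
          have h5 : z • resolvent a z = 1 + a * resolvent a z := by rw [← h4]; abel
          have h6 : resolvent a z = z⁻¹ • (z • resolvent a z) := by
            rw [smul_smul, inv_mul_cancel₀ hz0, one_smul]
          conv_lhs => rw [h6, h5]
          rw [smul_add, sub_zero]; abel
        have e2 : (dbar (cut 0 R) z • resolvent a z - (dbar (cut 0 R) z * (z - 0)⁻¹) • (1 : A))
            = dbar (cut 0 R) z • (z⁻¹ • (a * resolvent a z)) := by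
          rw [← e1, smul_sub, mul_smul]
        rw [e2, norm_smul, norm_smul, norm_inv]
        have b1 : ‖dbar (cut 0 R) z‖ ≤ D / R ^ 2 * ‖z‖ := by
          rw [dbar_cut, norm_mul, Complex.norm_real, sub_zero, norm_div,
            Real.norm_of_nonneg (by positivity : 0 ≤ R ^ 2)]
          gcongr
          exact hD _
        have b2 : ‖a * resolvent a z‖ ≤ ‖a‖ * (|C| * ‖z‖⁻¹) :=
          (norm_mul_le _ _).trans (by gcongr; exact hCb z (by linarith))
        calc ‖dbar (cut 0 R) z‖ * (‖z‖⁻¹ * ‖a * resolvent a z‖)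
            ≤ (D / R ^ 2 * ‖z‖) * (‖z‖⁻¹ * (‖a‖ * (|C| * ‖z‖⁻¹))) := by gcongr
          _ = D * |C| * ‖a‖ / R ^ 2 * ‖z‖⁻¹ := by field_simp
          _ ≤ D * |C| * ‖a‖ / R ^ 2 * R⁻¹ := by gcongr
          _ = D * |C| * ‖a‖ / R ^ 3 := by field_simp
    have hvol : volume (Metric.closedBall (0 : ℂ) (2 * R)) < ⊤ :=
      (isCompact_closedBall _ _).measure_lt_top
    refine (norm_setIntegral_le_of_norm_le_const hvol hbound).trans (le_of_eq ?_)
    rw [Measure.real, Complex.volume_closedBall]
    simp only [ENNReal.toReal_mul, ENNReal.toReal_pow, ENNReal.toReal_ofReal (by positivity : 0 ≤ 2 * R),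
      ENNReal.coe_toReal, NNReal.coe_real_pi]
    field_simp
    ring
  have hlim : Tendsto (fun R : ℝ => (4 * Real.pi * D * |C| * ‖a‖) * R⁻¹) atTop (𝓝 0) := by
    simpa using tendsto_inv_atTop_zero.const_mul (4 * Real.pi * D * |C| * ‖a‖)
  have h0 : ‖J + (Real.pi : ℂ) • (1 : A)‖ ≤ 0 := by
    apply ge_of_tendsto hlim
    filter_upwards [eventually_gt_atTop R₁] with R hR
    exact main R hR
  have h1 : J + (Real.pi : ℂ) • (1 : A) = 0 := norm_le_zero_iff.mp h0
  rw [neg_smul]
  exact eq_neg_of_add_eq_zero_left h1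

/-- unnormalised holomorphic calculus -/
noncomputable def hcalc (χ : ℂ → ℂ) (a : A) (f : ℂ → ℂ) : A :=
  ∫ z, (f z * dbar χ z) • resolvent a z

variable {Ω : Set ℂ} {χ : ℂ → ℂ} {a : A} {f g : ℂ → ℂ}

omit [CompleteSpace A] in
lemma hcalc_eq (f : ℂ → ℂ) : hcalc χ a f = ∫ z, dbar χ z • (f z • resolvent a z) := by
  unfold hcalc
  congr 1
  funext z
  rw [smul_smul, mul_comm]

lemma hcalc_integrable (hΩ : IsOpen Ω) (hχ : IsCutoff Ω (spectrum ℂ a) χ)
    (hf : DifferentiableOn ℂ f Ω) :
    Integrable (fun z => dbar χ z • (f z • resolvent a z)) := by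
  apply hχ.integrable hΩ (spectrum.isClosed a)
  exact (hf.continuousOn.mono sdiff_subset).smul
    ((differentiableOn_resolvent a).continuousOn.mono (sdiff_subset_sdiff_left (subset_univ _)))

lemma hcalc_indep {χ' : ℂ → ℂ} (hΩ : IsOpen Ω) (hχ : IsCutoff Ω (spectrum ℂ a) χ)
    (hχ' : IsCutoff Ω (spectrum ℂ a) χ') (hf : DifferentiableOn ℂ f Ω) :
    hcalc χ a f = hcalc χ' a f := by
  rw [hcalc_eq, hcalc_eq]
  apply integral_dbar_indep hΩ (spectrum.isClosed a) hχ hχ'
  exact (hf.mono sdiff_subset).smul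
    ((differentiableOn_resolvent a).mono (sdiff_subset_sdiff_left (subset_univ _)))

omit [CompleteSpace A] in
lemma hcalc_congr (hχ : IsCutoff Ω (spectrum ℂ a) χ) (hfg : EqOn f g Ω) :
    hcalc χ a f = hcalc χ a g := by
  unfold hcalc
  congr 1
  funext z
  by_cases hz : z ∈ tsupport χ
  · rw [hfg (hχ.supp hz)]
  · rw [dbar_eq_zero_of_notMem_tsupport hz]; simp

lemma hcalc_add (hΩ : IsOpen Ω) (hχ : IsCutoff Ω (spectrum ℂ a) χ)
    (hf : DifferentiableOn ℂ f Ω) (hg : DifferentiableOn ℂ g Ω) :
    hcalc χ a (f + g) = hcalc χ a f + hcalc χ a g := by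
  rw [hcalc_eq, hcalc_eq, hcalc_eq, ← integral_add (hcalc_integrable hΩ hχ hf)
    (hcalc_integrable hΩ hχ hg)]
  congr 1
  funext z
  rw [Pi.add_apply, add_smul, smul_add]

omit [CompleteSpace A] in
lemma hcalc_smul (c : ℂ) : hcalc χ a (c • f) = c • hcalc χ a f := by
  unfold hcalc
  rw [← integral_smul]
  congr 1
  funext z
  rw [Pi.smul_apply, smul_eq_mul, smul_smul, mul_assoc]

/-- the inner integral in the proof of multiplicativity -/
lemma inner_integral (hΩ : IsOpen Ω) {χ' : ℂ → ℂ} (hχ' : IsCutoff Ω (tsupport χ) χ')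
    (hχ : IsCutoff Ω (spectrum ℂ a) χ)
    (hg : DifferentiableOn ℂ g Ω) {z : ℂ} (hz : z ∈ tsupport χ) (hzs : z ∉ spectrum ℂ a) :
    resolvent a z * hcalc χ' a g
      = (-(Real.pi : ℂ) * g z) • resolvent a z
        - ∫ w, (dbar χ' w * (g w * (w - z)⁻¹)) • resolvent a w := by
  have hχ's : IsCutoff Ω (spectrum ℂ a) χ' := hχ'.mono subset_rfl hχ.subset_tsupport
  have hχ'z : IsCutoff Ω {z} χ' := hχ'.mono subset_rfl (by simpa using hz)
  have hopen : IsOpen (Ω \ tsupport χ) := hΩ.sdiff (isClosed_tsupport _)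
  have hz' : ∀ w ∈ Ω \ tsupport χ, w - z ≠ 0 := by
    intro w hw
    apply sub_ne_zero.mpr
    rintro rfl
    exact hw.2 hz
  have cgz : ContinuousOn (fun w => g w * (w - z)⁻¹) (Ω \ tsupport χ) :=
    (hg.continuousOn.mono sdiff_subset).mul
      ((continuousOn_id.sub continuousOn_const).inv₀ hz')
  have cR : ContinuousOn (resolvent a) (Ω \ tsupport χ) :=
    (differentiableOn_resolvent a).continuousOn.mono (fun w hw =>
      ⟨mem_univ _, fun h => hw.2 (hχ.subset_tsupport h)⟩)
  have i1 : Integrable (fun w => dbar χ' w • ((g w * (w - z)⁻¹) • resolvent a z)) :=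
    hχ'.integrable hΩ (isClosed_tsupport _) (cgz.smul continuousOn_const)
  have i2 : Integrable (fun w => dbar χ' w • ((g w * (w - z)⁻¹) • resolvent a w)) :=
    hχ'.integrable hΩ (isClosed_tsupport _) (cgz.smul cR)
  have h1 : resolvent a z * hcalc χ' a g
      = ∫ w, (dbar χ' w • ((g w * (w - z)⁻¹) • resolvent a z)
          - dbar χ' w • ((g w * (w - z)⁻¹) • resolvent a w)) := by
    have h2 := ((ContinuousLinearMap.mul ℂ A) (resolvent a z)).integral_comp_comm
      (hcalc_integrable hΩ hχ's hg)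
    rw [hcalc_eq]
    simp only [ContinuousLinearMap.mul_apply'] at h2
    rw [← h2]
    congr 1
    funext w
    by_cases hw : w ∈ tsupport (dbar χ')
    · have hw' := hχ'.tsupport_dbar hw
      have hws : w ∉ spectrum ℂ a := fun h => hw'.2 (hχ.subset_tsupport h)
      have hwz : w - z ≠ 0 := hz' w hw'
      have h3 := resolvent_mul_resolvent a hzs hws
      rw [mul_smul_comm, mul_smul_comm, ← smul_sub, ← smul_sub, ← h3, smul_smul (g w * (w - z)⁻¹),
        mul_assoc, inv_mul_cancel₀ hwz, mul_one]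
    · rw [image_eq_zero_of_notMem_tsupport hw]; simp
  rw [h1, integral_sub i1 i2]
  have h4 : ∫ w, dbar χ' w • ((g w * (w - z)⁻¹) • resolvent a z)
      = (-(Real.pi : ℂ) * g z) • resolvent a z := by
    rw [← cauchy_cutoff hΩ hχ'z hg, ← integral_smul_const]
    congr 1
    funext w
    rw [smul_smul]
  rw [h4]
  congr 1
  congr 1
  funext w
  rw [smul_smul]

/-- multiplicativity of the (unnormalised) calculus -/
theorem hcalc_mul (hΩ : IsOpen Ω) (hχ : IsCutoff Ω (spectrum ℂ a) χ)
    (hf : DifferentiableOn ℂ f Ω) (hg : DifferentiableOn ℂ g Ω) :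
    hcalc χ a f * hcalc χ a g = -(Real.pi : ℂ) • hcalc χ a (f * g) := by
  obtain ⟨χ', hχ'⟩ := exists_cutoff hΩ hχ.compact hχ.supp
  have hχ's : IsCutoff Ω (spectrum ℂ a) χ' := hχ'.mono subset_rfl hχ.subset_tsupport
  rw [hcalc_indep hΩ hχ hχ's hg]
  set k : ℂ → A := fun z => ∫ w, (dbar χ' w * (g w * (w - z)⁻¹)) • resolvent a w with hk
  -- continuity / compact support of the double integrand
  set F : ℂ → ℂ → A := fun z w =>
    (dbar χ z * dbar χ' w) • ((f z * (g w * (w - z)⁻¹)) • resolvent a w) with hF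
  set φ : ℂ × ℂ → ℂ := fun p => dbar χ p.1 * dbar χ' p.2 with hφ
  have hφc : Continuous φ :=
    ((continuous_dbar hχ.contDiff).comp continuous_fst).mul
      ((continuous_dbar hχ'.contDiff).comp continuous_snd)
  have hK1 : IsCompact (tsupport (dbar χ)) := hasCompactSupport_dbar hχ.compact
  have hK2 : IsCompact (tsupport (dbar χ')) := hasCompactSupport_dbar hχ'.compact
  have hφs : tsupport φ ⊆ tsupport (dbar χ) ×ˢ tsupport (dbar χ') := by
    apply closure_minimal _ ((isClosed_tsupport _).prod (isClosed_tsupport _))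
    intro p hp
    rw [Function.mem_support, hφ] at hp
    exact ⟨subset_tsupport _ (left_ne_zero_of_mul hp), subset_tsupport _ (right_ne_zero_of_mul hp)⟩
  have hFs : tsupport F.uncurry ⊆ tsupport φ := by
    apply closure_mono
    intro p hp hφp
    apply hp
    have : dbar χ p.1 * dbar χ' p.2 = 0 := hφp
    simp only [Function.uncurry, hF, this, zero_smul]
  have hFc : HasCompactSupport F.uncurry :=
    HasCompactSupport.of_support_subset_isCompact (hK1.prod hK2)
      ((subset_tsupport _).trans (hFs.trans hφs))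
  have hFcont : Continuous F.uncurry := by
    apply continuous_of_tsupport
    intro p hp
    have hp1 := hφs (hFs hp)
    have hz := hχ.tsupport_dbar hp1.1
    have hw := hχ'.tsupport_dbar hp1.2
    have hzt : p.1 ∈ tsupport χ := tsupport_dbar_subset hp1.1
    have hne : p.2 - p.1 ≠ 0 := by
      apply sub_ne_zero.mpr
      intro h
      exact hw.2 (h ▸ hzt)
    have hws : p.2 ∉ spectrum ℂ a := fun h => hw.2 (hχ.subset_tsupport h)
    have c1 : ContinuousAt (fun p : ℂ × ℂ => f p.1) p :=
      ContinuousAt.comp (f := Prod.fst) (g := f)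
        (hf.differentiableAt (hΩ.mem_nhds hz.1)).continuousAt continuousAt_fst
    have c2 : ContinuousAt (fun p : ℂ × ℂ => g p.2) p :=
      ContinuousAt.comp (f := Prod.snd) (g := g)
        (hg.differentiableAt (hΩ.mem_nhds hw.1)).continuousAt continuousAt_snd
    have c3 : ContinuousAt (fun p : ℂ × ℂ => resolvent a p.2) p :=
      ContinuousAt.comp (f := Prod.snd) (g := resolvent a)
        ((differentiableOn_resolvent a).differentiableAt
          ((isOpen_univ.sdiff (spectrum.isClosed a)).mem_nhds ⟨mem_univ _, hws⟩)).continuousAt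
        continuousAt_snd
    exact hφc.continuousAt.smul ((c1.mul (c2.mul
      ((continuousAt_snd.sub continuousAt_fst).inv₀ hne))).smul c3)
  have hswap := integral_integral_swap_of_hasCompactSupport hFcont hFc (μ := volume) (ν := volume)
  have hinner0 : ∀ w, ∫ z, F z w = 0 := by
    intro w
    by_cases hw : w ∈ tsupport (dbar χ')
    · have hw' := hχ'.tsupport_dbar hw
      have hO : IsOpen (Ω \ {w}) := hΩ.sdiff isClosed_singleton
      have hs : tsupport χ ⊆ Ω \ {w} := by
        intro z hz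
        refine ⟨hχ.supp hz, ?_⟩
        rintro rfl
        exact hw'.2 hz
      have hd : DifferentiableOn ℂ (fun z => f z * (w - z)⁻¹) (Ω \ {w}) := by
        apply (hf.mono sdiff_subset).mul
        intro z hz
        have : w - z ≠ 0 := sub_ne_zero.mpr (fun h => hz.2 h.symm)
        exact ((differentiableAt_id.const_sub w).inv this).differentiableWithinAt
      have h0 := integral_dbar_smul_eq_zero hO hχ.contDiff hχ.compact hs hd
      have e : (fun z => F z w)
          = fun z => (dbar χ z • (f z * (w - z)⁻¹)) • ((dbar χ' w * g w) • resolvent a w) := by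
        funext z
        simp only [hF, smul_eq_mul, smul_smul]
        congr 1
        ring
      rw [e, integral_smul_const, h0, zero_smul]
    · have : dbar χ' w = 0 := image_eq_zero_of_notMem_tsupport hw
      simp only [hF, this, mul_zero, zero_smul, integral_zero]
  have hk0 : ∫ z, (dbar χ z * f z) • k z = 0 := by
    have e : (fun z => (dbar χ z * f z) • k z) = fun z => ∫ w, F z w := by
      funext z
      rw [hk, ← integral_smul]
      congr 1
      funext w
      simp only [hF, smul_smul]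
      congr 1
      ring
    rw [e, hswap]
    simp [hinner0]
  -- the main computation
  have hi1 := hcalc_integrable hΩ hχ hf
  have h2 := (((ContinuousLinearMap.mul ℂ A).flip) (hcalc χ' a g)).integral_comp_comm hi1
  simp only [ContinuousLinearMap.flip_apply, ContinuousLinearMap.mul_apply'] at h2
  rw [hcalc_eq f, ← h2]
  have ifg : Integrable (fun z => dbar χ z • ((f * g) z • resolvent a z)) :=
    hcalc_integrable hΩ hχ (hf.mul hg)
  have ik : Integrable (fun z => (dbar χ z * f z) • k z) := by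
    have e : (fun z => (dbar χ z * f z) • k z) = fun z => ∫ w, F z w := by
      funext z
      rw [hk, ← integral_smul]
      congr 1
      funext w
      simp only [hF, smul_smul]
      congr 1
      ring
    rw [e]
    have hint : Integrable F.uncurry (volume.prod volume) :=
      hFcont.integrable_of_hasCompactSupport hFc
    exact hint.integral_prod_left
  have e3 : (fun z => (dbar χ z • f z • resolvent a z) * hcalc χ' a g)
      = fun z => (-(Real.pi : ℂ)) • (dbar χ z • ((f * g) z • resolvent a z))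
        - (dbar χ z * f z) • k z := by
    funext z
    by_cases hz : z ∈ tsupport (dbar χ)
    · have hz' := hχ.tsupport_dbar hz
      rw [smul_mul_assoc, smul_mul_assoc,
        inner_integral hΩ hχ' hχ hg (tsupport_dbar_subset hz) hz'.2, smul_sub, smul_sub]
      simp only [smul_smul, Pi.mul_apply, hk]
      congr 1
      congr 1
      ring
    · have : dbar χ z = 0 := image_eq_zero_of_notMem_tsupport hz
      simp [this]
  have ifg' : Integrable (fun z => (-(Real.pi : ℂ)) • (dbar χ z • ((f * g) z • resolvent a z))) :=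
    ifg.smul (-(Real.pi : ℂ))
  rw [e3, integral_sub ifg' ik, hk0, sub_zero, integral_smul, ← hcalc_eq]

end algebra

end Pool.Agent.Crouzeix
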