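import Mathlib
import Pool.Agent.Crouzeix.Abstract

/-!
# Positivity of the Toeplitz kernel from a norm inequality
-/

set_option autoImplicit false

open Filter Topology Finset
open scoped InnerProductSpace ComplexConjugate

namespace Pool.Agent.Crouzeix

variable {H : Type*} [NormedAddCommGroup H] [InnerProductSpace ℂ H] [CompleteSpace H]

/-- Fejér weights (times `N`). -/
noncomputable def kap (N m : ℕ) : ℝ := if m = 0 then N else 2 * ((N : ℝ) - m)

lemma kap_self (N : ℕ) : kap N N = 0 := by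
  unfold kap; split_ifs with h
  · simp [h]
  · simp

lemma kap_succ (N m : ℕ) : kap (N + 1) m = kap N m + 2 - (if m = 0 then 1 else 0) := by
  unfold kap; split_ifs with h
  · push_cast; ring
  · push_cast; ring

lemma fejer_identity (z : ℂ) (N : ℕ) :
    (∑ m ∈ range N, (kap N m : ℂ) * z ^ m).re
      = ‖∑ j ∈ range N, z ^ j‖ ^ 2
        + (1 - ‖z‖ ^ 2) * ∑ k ∈ range N, ‖∑ j ∈ range k, z ^ j‖ ^ 2 := by
  induction N with
  | zero => simp
  | succ N ih =>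
    have h1 : ∑ m ∈ range (N + 1), (kap (N + 1) m : ℂ) * z ^ m
        = ∑ m ∈ range N, (kap N m : ℂ) * z ^ m + 2 * ∑ j ∈ range (N + 1), z ^ j - 1 := by
      have : ∀ m ∈ range (N + 1), (kap (N + 1) m : ℂ) * z ^ m
          = (kap N m : ℂ) * z ^ m + 2 * z ^ m - (if m = 0 then 1 else 0) := by
        intro m _
        rw [kap_succ]
        split_ifs with h
        · subst h; push_cast; ring
        · push_cast; ring
      rw [Finset.sum_congr rfl this, Finset.sum_sub_distrib, Finset.sum_add_distrib,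
        ← Finset.mul_sum, Finset.sum_range_succ (fun m => (kap N m : ℂ) * z ^ m), kap_self]
      simp
    rw [h1, Finset.sum_range_succ (fun k => ‖∑ j ∈ range k, z ^ j‖ ^ 2), geom_sum_succ]
    set P := ∑ j ∈ range N, z ^ j with hP
    have h2 : ‖z * P + 1‖ ^ 2 = ‖z‖ ^ 2 * ‖P‖ ^ 2 + 2 * (z * P).re + 1 := by
      have := Complex.sq_norm (z * P + 1)
      rw [this, ← mul_pow, ← norm_mul, Complex.sq_norm, Complex.normSq_apply, Complex.normSq_apply]
      simp only [Complex.add_re, Complex.one_re, Complex.add_im, Complex.one_im]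
      ring
    have h3 : (2 * (z * P + 1) : ℂ).re = 2 * ((z * P).re + 1) := by
      have : (2 * (z * P + 1) : ℂ) = ((2 : ℝ) : ℂ) * (z * P + 1) := by push_cast; ring
      rw [this, Complex.re_ofReal_mul, Complex.add_re, Complex.one_re]
    rw [h2, Complex.sub_re, Complex.add_re, ih, h3, Complex.one_re]
    ring

lemma fejer_nonneg (z : ℂ) (hz : ‖z‖ ≤ 1) (N : ℕ) :
    0 ≤ (∑ m ∈ range N, (kap N m : ℂ) * z ^ m).re := by
  rw [fejer_identity]
  have : ‖z‖ ^ 2 ≤ 1 := pow_le_one₀ (norm_nonneg _) hz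
  have : 0 ≤ 1 - ‖z‖ ^ 2 := by linarith
  positivity

/-- norm domination of polynomials in the sequence `M` -/
def NormDom (M : ℕ → H →L[ℂ] H) : Prop :=
  ∀ (N : ℕ) (c : ℕ → ℂ) (R : ℝ),
    (∀ z : ℂ, ‖z‖ ≤ 1 → ‖∑ m ∈ range N, c m * z ^ m‖ ≤ R) →
      ‖∑ m ∈ range N, c m • M m‖ ≤ 2 * R

omit [CompleteSpace H] in
lemma re_nonneg_of_normDom (M : ℕ → H →L[ℂ] H) (hM0 : M 0 = (2 : ℂ) • 1) (hM : NormDom M)
    (N : ℕ) (hN : 0 < N) (c : ℕ → ℂ)
    (hc : ∀ z : ℂ, ‖z‖ ≤ 1 → 0 ≤ (∑ m ∈ range N, c m * z ^ m).re) (v : H) :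
    0 ≤ ((inner ℂ v ((∑ m ∈ range N, c m • M m) v))).re := by
  set G := ∑ m ∈ range N, c m • M m with hG
  set R₀ : ℝ := ∑ m ∈ range N, ‖c m‖ with hR0
  have hR00 : 0 ≤ R₀ := by positivity
  have key : ∀ t : ℝ, 0 < t → -(R₀ ^ 2 / t * ‖v‖ ^ 2) ≤ ((inner ℂ v (G v))).re := by
    intro t ht
    have hb : ∀ z : ℂ, ‖z‖ ≤ 1 →
        ‖∑ m ∈ range N, ((if m = 0 then (t : ℂ) else 0) - c m) * z ^ m‖ ≤ Real.sqrt (t ^ 2 + R₀ ^ 2) := by
      intro z hz
      have e1 : ∑ m ∈ range N, ((if m = 0 then (t : ℂ) else 0) - c m) * z ^ m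
          = (t : ℂ) - ∑ m ∈ range N, c m * z ^ m := by
        simp_rw [sub_mul]
        rw [Finset.sum_sub_distrib]
        congr 1
        simp [ite_mul, hN]
      rw [e1]
      set g := ∑ m ∈ range N, c m * z ^ m with hg
      apply Real.le_sqrt_of_sq_le
      have h1 : ‖g‖ ≤ R₀ := by
        calc ‖g‖ ≤ ∑ m ∈ range N, ‖c m * z ^ m‖ := norm_sum_le _ _
          _ ≤ ∑ m ∈ range N, ‖c m‖ := by
            apply Finset.sum_le_sum
            intro m _
            rw [norm_mul, norm_pow]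
            calc ‖c m‖ * ‖z‖ ^ m ≤ ‖c m‖ * 1 := by
                  gcongr; exact pow_le_one₀ (norm_nonneg _) hz
              _ = ‖c m‖ := mul_one _
      have h2 : 0 ≤ g.re := hc z hz
      have h3 : ‖g‖ ^ 2 ≤ R₀ ^ 2 := pow_le_pow_left₀ (norm_nonneg _) h1 2
      rw [Complex.sq_norm, Complex.normSq_apply] at h3 ⊢
      simp only [Complex.sub_re, Complex.ofReal_re, Complex.sub_im, Complex.ofReal_im, zero_sub]
      nlinarith
    have h1 := hM N _ _ hb
    have e2 : ∑ m ∈ range N, ((if m = 0 then (t : ℂ) else 0) - c m) • M m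
        = ((2 * t : ℝ) : ℂ) • (1 : H →L[ℂ] H) - G := by
      simp_rw [sub_smul]
      rw [Finset.sum_sub_distrib]
      congr 1
      simp only [ite_smul, zero_smul]
      rw [Finset.sum_ite_eq' (range N) 0]
      simp only [Finset.mem_range, hN, if_true, hM0, smul_smul]
      congr 1
      push_cast; ring
    rw [e2] at h1
    have h2 : ((inner ℂ v ((((2 * t : ℝ) : ℂ) • (1 : H →L[ℂ] H) - G) v))).re
        ≤ (2 * Real.sqrt (t ^ 2 + R₀ ^ 2)) * ‖v‖ ^ 2 := by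
      calc ((inner ℂ v ((((2 * t : ℝ) : ℂ) • (1 : H →L[ℂ] H) - G) v))).re
          ≤ ‖(inner ℂ v ((((2 * t : ℝ) : ℂ) • (1 : H →L[ℂ] H) - G) v))‖ := Complex.re_le_norm _
        _ ≤ ‖v‖ * ‖(((2 * t : ℝ) : ℂ) • (1 : H →L[ℂ] H) - G) v‖ := norm_inner_le_norm _ _
        _ ≤ ‖v‖ * (‖((2 * t : ℝ) : ℂ) • (1 : H →L[ℂ] H) - G‖ * ‖v‖) := by
            gcongr; exact ContinuousLinearMap.le_opNorm _ _
        _ ≤ ‖v‖ * ((2 * Real.sqrt (t ^ 2 + R₀ ^ 2)) * ‖v‖) := by gcongr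
        _ = _ := by ring
    have h3 : ((inner ℂ v ((((2 * t : ℝ) : ℂ) • (1 : H →L[ℂ] H) - G) v))).re
        = 2 * t * ‖v‖ ^ 2 - ((inner ℂ v (G v))).re := by
      have : (inner ℂ v ((((2 * t : ℝ) : ℂ) • (1 : H →L[ℂ] H) - G) v))
          = ((2 * t : ℝ) : ℂ) * (inner ℂ v v) - (inner ℂ v (G v)) := by
        rw [sub_apply, inner_sub_right, smul_apply, inner_smul_right]
        rfl
      rw [this, Complex.sub_re, Complex.re_ofReal_mul, re_self]
    rw [h3] at h2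
    have h4 : Real.sqrt (t ^ 2 + R₀ ^ 2) ≤ t + R₀ ^ 2 / (2 * t) := by
      apply Real.sqrt_le_iff.mpr
      constructor
      · positivity
      · have : (t + R₀ ^ 2 / (2 * t)) ^ 2 = t ^ 2 + R₀ ^ 2 + (R₀ ^ 2 / (2 * t)) ^ 2 := by
          field_simp; ring
        rw [this]
        nlinarith [sq_nonneg (R₀ ^ 2 / (2 * t))]
    have h5 : (2 * Real.sqrt (t ^ 2 + R₀ ^ 2)) * ‖v‖ ^ 2
        ≤ (2 * (t + R₀ ^ 2 / (2 * t))) * ‖v‖ ^ 2 := by gcongr
    have h6 : (2 * (t + R₀ ^ 2 / (2 * t))) * ‖v‖ ^ 2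
        = 2 * t * ‖v‖ ^ 2 + R₀ ^ 2 / t * ‖v‖ ^ 2 := by field_simp
    linarith
  have hlim : Tendsto (fun t : ℝ => -(R₀ ^ 2 / t * ‖v‖ ^ 2)) atTop (𝓝 (-(0 * ‖v‖ ^ 2))) := by
    apply Tendsto.neg
    apply Tendsto.mul_const
    exact tendsto_const_nhds.div_atTop tendsto_id
  have : -(0 * ‖v‖ ^ 2) ≤ ((inner ℂ v (G v))).re := by
    apply le_of_tendsto hlim
    filter_upwards [eventually_gt_atTop 0] with t ht
    exact key t ht
  simpa using this

lemma orth (L : ℕ) (hL : L ≠ 0) (a b : ℕ) (ha : a < L) (hb : b < L) (ζ : ℂ)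
    (hζ : IsPrimitiveRoot ζ L) :
    ∑ j ∈ range L, (conj (ζ ^ j)) ^ a * (ζ ^ j) ^ b = if a = b then (L : ℂ) else 0 := by
  have hn : ‖ζ‖ = 1 := hζ.norm'_eq_one hL
  have hζ0 : ζ ≠ 0 := by
    intro h; rw [h] at hn; simp at hn
  have hconj : conj ζ = ζ⁻¹ := by
    rw [Complex.inv_def, Complex.normSq_eq_norm_sq, hn]; simp
  set q : ℂ := ζ⁻¹ ^ a * ζ ^ b with hq
  have hterm : ∀ j ∈ range L, (conj (ζ ^ j)) ^ a * (ζ ^ j) ^ b = q ^ j := by
    intro j _
    rw [map_pow, hconj, hq, mul_pow, ← pow_mul, ← pow_mul, ← pow_mul, ← pow_mul, mul_comm j a,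
      mul_comm j b]
  rw [Finset.sum_congr rfl hterm]
  split_ifs with hab
  · have : q = 1 := by
      rw [hq, hab, ← mul_pow, inv_mul_cancel₀ hζ0, one_pow]
    simp [this]
  · have hq1 : q ≠ 1 := by
      intro h
      have : ζ ^ b = ζ ^ a := by
        have h2 : ζ ^ a * q = ζ ^ a := by rw [h, mul_one]
        rw [hq, ← mul_assoc, ← mul_pow, mul_inv_cancel₀ hζ0, one_pow, one_mul] at h2
        exact h2
      exact hab (hζ.pow_inj hb ha this).symm
    have hqL : q ^ L = 1 := by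
      rw [hq, mul_pow, ← pow_mul, ← pow_mul, mul_comm a L, mul_comm b L, pow_mul, pow_mul,
        inv_pow, hζ.pow_eq_one]
      simp
    have := mul_neg_geom_sum q L
    rw [hqL, sub_self] at this
    rcases mul_eq_zero.mp this with h | h
    · exact absurd (sub_eq_zero.mp h).symm hq1
    · exact h

omit [CompleteSpace H] in
/-- averaging over roots of unity. -/
lemma average_pos (M : ℕ → H →L[ℂ] H) (hM0 : M 0 = (2 : ℂ) • 1) (hM : NormDom M)
    {ι : Type} [Fintype ι] (k : ι → ℕ) (h : ι → H) (N B : ℕ) (hN : 0 < N) (hk : ∀ i, k i ≤ B) :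
    0 ≤ (∑ i, ∑ i', ∑ m ∈ range N,
      if m + k i = k i' then (kap N m : ℂ) * (inner ℂ (h i) (M m (h i'))) else 0).re := by
  set L := N + B with hL
  have hL0 : L ≠ 0 := by omega
  obtain ⟨ζ, hζ⟩ : ∃ ζ : ℂ, IsPrimitiveRoot ζ L := ⟨_, Complex.isPrimitiveRoot_exp L hL0⟩
  have hn : ‖ζ‖ = 1 := hζ.norm'_eq_one hL0
  have hpos : ∀ j ∈ range L, 0 ≤ ((inner ℂ (∑ i, (ζ ^ j) ^ (k i) • h i) ((∑ m ∈ range N, ((kap N m : ℂ) * (conj (ζ ^ j)) ^ m) • M m)
        (∑ i, (ζ ^ j) ^ (k i) • h i)))).re := by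
    intro j _
    apply re_nonneg_of_normDom M hM0 hM N hN
    intro z hz
    have := fejer_nonneg (conj (ζ ^ j) * z) (by
      rw [norm_mul, Complex.norm_conj, norm_pow, hn, one_pow, one_mul]; exact hz) N
    convert this using 3
    rw [mul_pow]; ring
  have hsum := Finset.sum_nonneg hpos
  rw [← Complex.re_sum] at hsum
  have hexp : ∑ j ∈ range L, (inner ℂ (∑ i, (ζ ^ j) ^ (k i) • h i) ((∑ m ∈ range N, ((kap N m : ℂ) * (conj (ζ ^ j)) ^ m) • M m)
        (∑ i, (ζ ^ j) ^ (k i) • h i)))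
      = (L : ℂ) * (∑ i, ∑ i', ∑ m ∈ range N,
      if m + k i = k i' then (kap N m : ℂ) * (inner ℂ (h i) (M m (h i'))) else 0) := by
    have e1 : ∀ j ∈ range L, (inner ℂ (∑ i, (ζ ^ j) ^ (k i) • h i) ((∑ m ∈ range N, ((kap N m : ℂ) * (conj (ζ ^ j)) ^ m) • M m)
        (∑ i, (ζ ^ j) ^ (k i) • h i)))
        = ∑ i, ∑ i', ∑ m ∈ range N, ((conj (ζ ^ j)) ^ (m + k i) * (ζ ^ j) ^ (k i')) *
          ((kap N m : ℂ) * (inner ℂ (h i) (M m (h i')))) := by
      intro j _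
      rw [sum_inner]
      apply Finset.sum_congr rfl
      intro i _
      rw [map_sum, inner_sum]
      apply Finset.sum_congr rfl
      intro i' _
      rw [map_smul, _root_.sum_apply, inner_smul_left, inner_smul_right, inner_sum,
        Finset.mul_sum, Finset.mul_sum]
      apply Finset.sum_congr rfl
      intro m _
      rw [smul_apply, inner_smul_right, map_pow, pow_add]
      ring
    rw [Finset.sum_congr rfl e1, Finset.sum_comm, Finset.mul_sum]
    apply Finset.sum_congr rfl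
    intro i _
    rw [Finset.sum_comm, Finset.mul_sum]
    apply Finset.sum_congr rfl
    intro i' _
    rw [Finset.sum_comm, Finset.mul_sum]
    apply Finset.sum_congr rfl
    intro m hm
    rw [← Finset.sum_mul, orth L hL0 (m + k i) (k i')
      (by have := hk i; have := Finset.mem_range.mp hm; omega)
      (by have := hk i'; omega) ζ hζ]
    split_ifs with hc
    · rfl
    · simp
  rw [hexp] at hsum
  have hLpos : (0 : ℝ) < L := by
    have : 0 < L := Nat.pos_of_ne_zero hL0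
    exact_mod_cast this
  have : ((L : ℂ) * (∑ i, ∑ i', ∑ m ∈ range N,
      if m + k i = k i' then (kap N m : ℂ) * (inner ℂ (h i) (M m (h i'))) else 0)).re
      = (L : ℝ) * (∑ i, ∑ i', ∑ m ∈ range N,
      if m + k i = k i' then (kap N m : ℂ) * (inner ℂ (h i) (M m (h i'))) else 0).re := by
    rw [← Complex.ofReal_natCast, Complex.re_ofReal_mul]
  rw [this] at hsum
  exact (mul_nonneg_iff_of_pos_left hLpos).mp hsum

lemma inner_sum_eq (F : ℕ → ℂ) (a b N : ℕ) (hb : b < a + N) :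
    ∑ m ∈ range N, (if m + a = b then F m else 0) = if a ≤ b then F (b - a) else 0 := by
  split_ifs with hab
  · rw [Finset.sum_eq_single (b - a)]
    · rw [if_pos (by omega)]
    · intro m _ hm
      rw [if_neg (by omega)]
    · intro hm
      exact absurd (Finset.mem_range.mpr (by omega)) hm
  · apply Finset.sum_eq_zero
    intro m _
    rw [if_neg (by omega)]

omit [CompleteSpace H] in
theorem toeplitzPos_of_normDom (M : ℕ → H →L[ℂ] H) (hM0 : M 0 = (2 : ℂ) • 1)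
    (hM : NormDom M) : ToeplitzPos M := by
  intro n hn u₁ u₀ w
  have hav : ∀ N : ℕ, n + 2 ≤ N →
      0 ≤ 2 * ‖u₁‖ ^ 2 + 2 * ‖u₀‖ ^ 2 + 2 * ‖w‖ ^ 2
        + 2 * (1 - (N : ℝ)⁻¹) * ((inner ℂ u₀ (M 1 u₁))).re
        + 2 * (1 - n * (N : ℝ)⁻¹) * ((inner ℂ w (M n u₀))).re
        + 2 * (1 - (n + 1) * (N : ℝ)⁻¹) * ((inner ℂ w (M (n + 1) u₁))).re := by
    intro N hN
    have h := average_pos M hM0 hM (ι := Fin 3) ![n + 1, n, 0] ![u₁, u₀, w] N (n + 1)
      (by omega) (by intro i; fin_cases i <;> simp)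
    have hNpos : (0 : ℝ) < N := by
      have : 0 < N := by omega
      exact_mod_cast this
    have e : (∑ i : Fin 3, ∑ i' : Fin 3, ∑ m ∈ range N,
      if m + (![n + 1, n, 0] : Fin 3 → ℕ) i = (![n + 1, n, 0] : Fin 3 → ℕ) i' then
        (kap N m : ℂ) * (inner ℂ ((![u₁, u₀, w] : Fin 3 → H) i) (M m ((![u₁, u₀, w] : Fin 3 → H) i'))) else 0)
        = (kap N 0 : ℂ) * (inner ℂ u₁ (M 0 u₁)) + (kap N 0 : ℂ) * (inner ℂ u₀ (M 0 u₀))
          + (kap N 0 : ℂ) * (inner ℂ w (M 0 w)) + (kap N 1 : ℂ) * (inner ℂ u₀ (M 1 u₁))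
          + (kap N n : ℂ) * (inner ℂ w (M n u₀)) + (kap N (n + 1) : ℂ) * (inner ℂ w (M (n + 1) u₁)) := by
      have hk : ∀ i : Fin 3, (![n + 1, n, 0] : Fin 3 → ℕ) i ≤ n + 1 := by
        intro i; fin_cases i <;> simp
      rw [Finset.sum_congr rfl (fun i _ => Finset.sum_congr rfl (fun i' _ =>
        inner_sum_eq (fun m => (kap N m : ℂ) *
          (inner ℂ ((![u₁, u₀, w] : Fin 3 → H) i) (M m ((![u₁, u₀, w] : Fin 3 → H) i'))))
          ((![n + 1, n, 0] : Fin 3 → ℕ) i) ((![n + 1, n, 0] : Fin 3 → ℕ) i') N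
          (by have := hk i'; omega)))]
      have f1 : (n + 1 ≤ n) = False := by simp
      have f2 : (n + 1 ≤ 0) = False := by simp
      have f3 : (n ≤ 0) = False := by simp; omega
      simp only [Fin.sum_univ_three, Matrix.cons_val_zero, Matrix.cons_val_one, Matrix.cons_val,
        Nat.sub_self, Nat.add_sub_cancel_left, Nat.sub_zero, le_refl, if_true, Nat.zero_le,
        Nat.le_succ, f1, f2, f3, if_false]
      ring
    rw [e] at h
    have k0 : kap N 0 = N := by simp [kap]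
    have k1 : kap N 1 = 2 * (N - 1) := by simp [kap]
    have kn : kap N n = 2 * (N - n) := by
      unfold kap; rw [if_neg (by omega)]
    have kn1 : kap N (n + 1) = 2 * (N - (n + 1)) := by
      unfold kap; rw [if_neg (by omega)]; push_cast; ring
    have m0 : ∀ x : H, ((inner ℂ x (M 0 x))).re = 2 * ‖x‖ ^ 2 := by
      intro x
      rw [hM0, smul_apply, inner_smul_right]
      have : (2 : ℂ) = ((2 : ℝ) : ℂ) := by push_cast; ring
      rw [this, Complex.re_ofReal_mul]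
      congr 1
      exact re_self x
    simp only [Complex.add_re, Complex.re_ofReal_mul, m0, k0, k1, kn, kn1] at h
    have h2 := mul_nonneg (inv_nonneg.mpr hNpos.le) h
    have e2 : (N : ℝ)⁻¹ * (N * (2 * ‖u₁‖ ^ 2) + N * (2 * ‖u₀‖ ^ 2) + N * (2 * ‖w‖ ^ 2)
        + 2 * (N - 1) * ((inner ℂ u₀ (M 1 u₁))).re + 2 * (N - n) * ((inner ℂ w (M n u₀))).re
        + 2 * (N - (n + 1)) * ((inner ℂ w (M (n + 1) u₁))).re)
        = 2 * ‖u₁‖ ^ 2 + 2 * ‖u₀‖ ^ 2 + 2 * ‖w‖ ^ 2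
        + 2 * (1 - (N : ℝ)⁻¹) * ((inner ℂ u₀ (M 1 u₁))).re
        + 2 * (1 - n * (N : ℝ)⁻¹) * ((inner ℂ w (M n u₀))).re
        + 2 * (1 - (n + 1) * (N : ℝ)⁻¹) * ((inner ℂ w (M (n + 1) u₁))).re := by
      field_simp
    rw [e2] at h2
    exact h2
  have hinv : Tendsto (fun N : ℕ => (N : ℝ)⁻¹) atTop (𝓝 0) := tendsto_inv_atTop_nhds_zero_nat
  have hlim : Tendsto (fun N : ℕ => 2 * ‖u₁‖ ^ 2 + 2 * ‖u₀‖ ^ 2 + 2 * ‖w‖ ^ 2
        + 2 * (1 - (N : ℝ)⁻¹) * ((inner ℂ u₀ (M 1 u₁))).re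
        + 2 * (1 - n * (N : ℝ)⁻¹) * ((inner ℂ w (M n u₀))).re
        + 2 * (1 - (n + 1) * (N : ℝ)⁻¹) * ((inner ℂ w (M (n + 1) u₁))).re) atTop
      (𝓝 (2 * ‖u₁‖ ^ 2 + 2 * ‖u₀‖ ^ 2 + 2 * ‖w‖ ^ 2
        + 2 * (1 - 0) * ((inner ℂ u₀ (M 1 u₁))).re
        + 2 * (1 - n * 0) * ((inner ℂ w (M n u₀))).re
        + 2 * (1 - (n + 1) * 0) * ((inner ℂ w (M (n + 1) u₁))).re)) := by
    have c : Continuous (fun t : ℝ => 2 * ‖u₁‖ ^ 2 + 2 * ‖u₀‖ ^ 2 + 2 * ‖w‖ ^ 2
        + 2 * (1 - t) * ((inner ℂ u₀ (M 1 u₁))).re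
        + 2 * (1 - n * t) * ((inner ℂ w (M n u₀))).re
        + 2 * (1 - (n + 1) * t) * ((inner ℂ w (M (n + 1) u₁))).re) := by fun_prop
    exact (c.tendsto 0).comp hinv
  have := ge_of_tendsto hlim (by
    filter_upwards [eventually_ge_atTop (n + 2)] with N hN
    exact hav N hN)
  simpa using this

end Pool.Agent.Crouzeix
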