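import Mathlib
import Pool.Agent.Crouzeix.Abstract
import Pool.Agent.Crouzeix.Positivity
import Pool.Agent.Crouzeix.Calculus

/-!
# The unital Crouzeix–Palencia lemma
-/

set_option autoImplicit false

open Filter Topology MeasureTheory Set
open scoped ComplexConjugate

namespace Pool.Agent.Crouzeix

variable {A : Type*} [NormedRing A] [NormedAlgebra ℂ A] [CompleteSpace A]

/-- the normalised calculus -/
noncomputable def fcalc (χ : ℂ → ℂ) (a : A) (f : ℂ → ℂ) : A :=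
  -(1 / (Real.pi : ℂ)) • hcalc χ a f

variable {Ω : Set ℂ} {χ : ℂ → ℂ} {a : A} {f g : ℂ → ℂ}

lemma fcalc_one (hχ : IsCutoff Ω (spectrum ℂ a) χ) : fcalc χ a 1 = 1 := by
  have h := integral_dbar_resolvent a (hχ.mono (subset_univ _) subset_rfl)
  have h2 : hcalc χ a 1 = -(Real.pi : ℂ) • (1 : A) := by
    rw [← h]; unfold hcalc; simp
  have hpi : (Real.pi : ℂ) ≠ 0 := Complex.ofReal_ne_zero.mpr Real.pi_ne_zero
  rw [fcalc, h2, smul_smul]
  have : -(1 / (Real.pi : ℂ)) * -(Real.pi : ℂ) = 1 := by field_simp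
  rw [this, one_smul]

lemma fcalc_mul (hΩ : IsOpen Ω) (hχ : IsCutoff Ω (spectrum ℂ a) χ)
    (hf : DifferentiableOn ℂ f Ω) (hg : DifferentiableOn ℂ g Ω) :
    fcalc χ a (f * g) = fcalc χ a f * fcalc χ a g := by
  have hpi : (Real.pi : ℂ) ≠ 0 := Complex.ofReal_ne_zero.mpr Real.pi_ne_zero
  unfold fcalc
  rw [smul_mul_smul_comm, hcalc_mul hΩ hχ hf hg, smul_smul]
  congr 1
  field_simp

lemma fcalc_pow (hΩ : IsOpen Ω) (hχ : IsCutoff Ω (spectrum ℂ a) χ)
    (hf : DifferentiableOn ℂ f Ω) (n : ℕ) :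
    fcalc χ a (f ^ n) = (fcalc χ a f) ^ n := by
  induction n with
  | zero => rw [pow_zero, pow_zero, fcalc_one hχ]
  | succ n ih => rw [pow_succ, fcalc_mul hΩ hχ (hf.pow n) hf, ih, pow_succ]

lemma fcalc_commute (hΩ : IsOpen Ω) (hχ : IsCutoff Ω (spectrum ℂ a) χ)
    (hf : DifferentiableOn ℂ f Ω) (hg : DifferentiableOn ℂ g Ω) :
    Commute (fcalc χ a f) (fcalc χ a g) := by
  unfold Commute SemiconjBy
  rw [← fcalc_mul hΩ hχ hf hg, ← fcalc_mul hΩ hχ hg hf, mul_comm]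

lemma fcalc_add (hΩ : IsOpen Ω) (hχ : IsCutoff Ω (spectrum ℂ a) χ)
    (hf : DifferentiableOn ℂ f Ω) (hg : DifferentiableOn ℂ g Ω) :
    fcalc χ a (f + g) = fcalc χ a f + fcalc χ a g := by
  unfold fcalc
  rw [hcalc_add hΩ hχ hf hg, smul_add]

omit [CompleteSpace A] in
lemma fcalc_smul (c : ℂ) : fcalc χ a (c • f) = c • fcalc χ a f := by
  unfold fcalc
  rw [hcalc_smul, smul_comm]

omit [CompleteSpace A] in
lemma fcalc_congr (hχ : IsCutoff Ω (spectrum ℂ a) χ) (hfg : EqOn f g Ω) :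
    fcalc χ a f = fcalc χ a g := by
  unfold fcalc
  rw [hcalc_congr hχ hfg]

lemma fcalc_sum (hΩ : IsOpen Ω) (hχ : IsCutoff Ω (spectrum ℂ a) χ) (c : ℕ → ℂ)
    (F : ℕ → ℂ → ℂ) (hF : ∀ n, DifferentiableOn ℂ (F n) Ω) (N : ℕ) :
    fcalc χ a (∑ m ∈ Finset.range N, c m • F m) = ∑ m ∈ Finset.range N, c m • fcalc χ a (F m) := by
  induction N with
  | zero =>
    have := fcalc_smul (χ := χ) (a := a) (f := 1) 0
    simpa using this
  | succ N ih =>
    rw [Finset.sum_range_succ, Finset.sum_range_succ, fcalc_add hΩ hχ _ ((hF N).const_smul _), ih,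
      fcalc_smul]
    have : (∑ m ∈ Finset.range N, c m • F m) = fun z => ∑ m ∈ Finset.range N, (c m • F m) z := by
      funext z; simp
    rw [this]
    exact DifferentiableOn.fun_sum (fun m _ => (hF m).const_smul _)

/-- a crude bound for the calculus -/
lemma exists_fcalc_bound (hΩ : IsOpen Ω) (hχ : IsCutoff Ω (spectrum ℂ a) χ) :
    ∃ C : ℝ, 0 ≤ C ∧ ∀ (f : ℂ → ℂ) (M : ℝ), (∀ z ∈ Ω, ‖f z‖ ≤ M) → 0 ≤ M →
      ‖fcalc χ a f‖ ≤ C * M := by
  have hi : Integrable (fun z => ‖dbar χ z • resolvent a z‖) :=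
    ((hχ.integrable hΩ (spectrum.isClosed a)) ((differentiableOn_resolvent a).continuousOn.mono
      (sdiff_subset_sdiff_left (subset_univ _)))).norm
  refine ⟨‖-(1 / (Real.pi : ℂ))‖ * ∫ z, ‖dbar χ z • resolvent a z‖, ?_, ?_⟩
  · positivity
  intro f M hf hM
  unfold fcalc
  rw [norm_smul, mul_assoc]
  gcongr
  unfold hcalc
  calc ‖∫ z, (f z * dbar χ z) • resolvent a z‖
      ≤ ∫ z, M * ‖dbar χ z • resolvent a z‖ := by
        apply norm_integral_le_of_norm_le (hi.const_mul M)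
        filter_upwards with z
        by_cases hz : z ∈ tsupport χ
        · rw [mul_smul, norm_smul]
          exact mul_le_mul_of_nonneg_right (hf z (hχ.supp hz)) (norm_nonneg _)
        · rw [dbar_eq_zero_of_notMem_tsupport hz]; simp
    _ = (∫ z, ‖dbar χ z • resolvent a z‖) * M := by
        rw [integral_const_mul, mul_comm]

section main

variable {H : Type*} [NormedAddCommGroup H] [InnerProductSpace ℂ H] [CompleteSpace H]

/-- class `A(Ω)` -/
def AClass (Ω : Set ℂ) (f : ℂ → ℂ) : Prop :=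
  ContinuousOn f (closure Ω) ∧ DifferentiableOn ℂ f Ω

theorem unital_lemma (T : H →L[ℂ] H) (Ω : Set ℂ) (hΩ : IsOpen Ω) (χ : ℂ → ℂ)
    (hχ : IsCutoff Ω (spectrum ℂ T) χ)
    (α : (ℂ → ℂ) → (ℂ → ℂ))
    (hα : ∀ f, AClass Ω f → AClass Ω (α f))
    (hone : Set.EqOn (α 1) 1 (closure Ω))
    (hadd : ∀ f g : ℂ → ℂ, AClass Ω f → AClass Ω g →
        Set.EqOn (α (f + g)) (α f + α g) (closure Ω))
    (hsmul : ∀ (c : ℂ) (f : ℂ → ℂ), AClass Ω f →
        Set.EqOn (α (c • f)) ((starRingEnd ℂ) c • α f) (closure Ω))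
    (hX : ∀ f : ℂ → ℂ, AClass Ω f →
        ∀ M : ℝ, (∀ z ∈ closure Ω, ‖f z‖ ≤ M) → ‖fcalc χ T f + star (fcalc χ T (α f))‖ ≤ 2 * M)
    (f : ℂ → ℂ) (hf : AClass Ω f) (hf1 : ∀ z ∈ closure Ω, ‖f z‖ ≤ 1) :
    ‖fcalc χ T f‖ ≤ 2 := by
  have hpow : ∀ n, AClass Ω (f ^ n) := fun n => ⟨hf.1.pow n, hf.2.pow n⟩
  have hpow1 : ∀ n, ∀ z ∈ closure Ω, ‖(f ^ n) z‖ ≤ 1 := by
    intro n z hz
    rw [Pi.pow_apply, norm_pow]
    exact pow_le_one₀ (norm_nonneg _) (hf1 z hz)
  set S := fcalc χ T f with hS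
  set B : ℕ → H →L[ℂ] H := fun n => fcalc χ T (α (f ^ n)) with hB
  obtain ⟨C, hC0, hC⟩ := exists_fcalc_bound (a := T) hΩ hχ
  have hSn : ∀ n, ‖S ^ n‖ ≤ C := by
    intro n
    rw [hS, ← fcalc_pow hΩ hχ hf.2 n]
    simpa using hC (f ^ n) 1 (fun z hz => hpow1 n z (subset_closure hz)) zero_le_one
  have hBn : ∀ n, ‖B n‖ ≤ 2 + C := by
    intro n
    have h1 := hX (f ^ n) (hpow n) 1 (hpow1 n)
    rw [fcalc_pow hΩ hχ hf.2 n] at h1
    have h2 : star (B n) = (S ^ n + star (B n)) - S ^ n := by abel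
    calc ‖B n‖ = ‖star (B n)‖ := (norm_star _).symm
      _ = ‖(S ^ n + star (B n)) - S ^ n‖ := by rw [← h2]
      _ ≤ ‖S ^ n + star (B n)‖ + ‖S ^ n‖ := norm_sub_le _ _
      _ ≤ 2 * 1 + C := add_le_add h1 (hSn n)
      _ = 2 + C := by ring
  have hcomm : ∀ n, Commute (B n) S := fun n =>
    fcalc_commute hΩ hχ (hα _ (hpow n)).2 hf.2
  have hBS : ∀ n, ‖B n * S ^ n‖ ≤ (2 + C) * C := by
    intro n
    calc ‖B n * S ^ n‖ ≤ ‖B n‖ * ‖S ^ n‖ := norm_mul_le _ _
      _ ≤ (2 + C) * C := by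
        have := hBn n
        have := hSn n
        gcongr
  apply norm_le_two S B _ hcomm hBS
  apply toeplitzPos_of_normDom
  · -- the zeroth moment
    simp only [pow_zero, hB]
    have h1 : fcalc χ T (α 1) = 1 := by
      rw [fcalc_congr hχ (hone.mono subset_closure), fcalc_one hχ]
    rw [h1, star_one]
    exact (two_smul ℂ (1 : H →L[ℂ] H)).symm
  · intro N c R hR
    -- `α` of a polynomial in `f`
    have hclass : ∀ N, AClass Ω (∑ m ∈ Finset.range N, c m • f ^ m) := by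
      intro N
      have : (∑ m ∈ Finset.range N, c m • f ^ m)
          = fun z => ∑ m ∈ Finset.range N, (c m • f ^ m) z := by
        funext z; simp
      rw [this]
      exact ⟨continuousOn_finsetSum _ (fun m _ => (hpow m).1.const_smul (c m)),
        DifferentiableOn.fun_sum (fun m _ => (hpow m).2.const_smul (c m))⟩
    have hsumα : ∀ N, EqOn (α (∑ m ∈ Finset.range N, c m • f ^ m))
        (∑ m ∈ Finset.range N, (starRingEnd ℂ) (c m) • α (f ^ m)) (closure Ω) := by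
      intro N
      induction N with
      | zero =>
        have := hsmul 0 f hf
        simpa using this
      | succ N ih =>
        intro z hz
        rw [Finset.sum_range_succ, Finset.sum_range_succ,
          hadd _ _ (hclass N) ⟨(hpow N).1.const_smul (c N), (hpow N).2.const_smul (c N)⟩ hz,
          Pi.add_apply, Pi.add_apply, ih hz, hsmul (c N) (f ^ N) (hpow N) hz]
    have h1 := hX _ (hclass N) R (by
      intro z hz
      have := hR (f z) (hf1 z hz)
      simpa using this)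
    have h2 : fcalc χ T (∑ m ∈ Finset.range N, c m • f ^ m)
        = ∑ m ∈ Finset.range N, c m • S ^ m := by
      rw [fcalc_sum hΩ hχ c (fun m => f ^ m) (fun m => (hpow m).2) N]
      apply Finset.sum_congr rfl
      intro m _
      rw [fcalc_pow hΩ hχ hf.2 m]
    have h3 : star (fcalc χ T (α (∑ m ∈ Finset.range N, c m • f ^ m)))
        = ∑ m ∈ Finset.range N, c m • star (B m) := by
      rw [fcalc_congr hχ ((hsumα N).mono subset_closure),
        fcalc_sum hΩ hχ _ (fun m => α (f ^ m)) (fun m => (hα _ (hpow m)).2) N, star_sum]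
      apply Finset.sum_congr rfl
      intro m _
      rw [star_smul]
      simp [hB]
    rw [h2, h3, ← Finset.sum_add_distrib] at h1
    simpa only [smul_add] using h1

end main

end Pool.Agent.Crouzeix
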